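import Pool.Agent.U919.NV.Tree
import Pool.Agent.U919.GE.Main
import Pool.Agent.N24.TR.Tree

/-!
# Groups of matrices of size two over a division ring with a discrete valuation
-/

set_option autoImplicit false

namespace Pool.Agent.U919.NV

open Pool.Agent.Y110.FJ (ClosedE)
open Pool.Agent.U919.GE (G2 mp metab)

variable {C : ∀ (G : Type) [Group G], Prop}

/-- an extension with an abelian kernel -/
theorem ab_ker (hC : ClosedE C) (hM : ∀ (G : Type) [Group G], derivedSeries G 2 = ⊥ → C G)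
    {G Q : Type} [Group G] [Group Q] (π : G →* Q) (hπ : Function.Surjective π)
    (hker : ∀ x y : G, π x = 1 → π y = 1 → x * y = y * x) (hQ : C Q) : C G := by
  refine hC.ext G Q π hπ hQ ?_
  rintro V ⟨c, hcV, hc⟩
  obtain ⟨b, rfl⟩ := hπ c
  have h1 := metab π (⊤ : Subgroup G) (fun x _ y _ hx hy => hker x y hx hy) (b := b)
    (Subgroup.mem_top b)
  rw [top_inf_eq] at h1
  obtain ⟨L, hL⟩ : ∃ L, L = π.ker ⊔ Subgroup.zpowers b := ⟨_, rfl⟩
  rw [← hL] at h1
  have hLe : L = (Subgroup.zpowers (π b)).comap π := by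
    rw [hL]
    apply le_antisymm
    · refine sup_le ?_ ?_
      · intro x hx
        rw [Subgroup.mem_comap, MonoidHom.mem_ker.1 hx]
        exact one_mem _
      · rw [Subgroup.zpowers_le]
        exact Subgroup.mem_zpowers _
    · intro x hx
      obtain ⟨n, hn⟩ := hx
      have hn' : π b ^ n = π x := hn
      have h2 : x * (b ^ n)⁻¹ ∈ π.ker := by
        rw [MonoidHom.mem_ker, map_mul, map_inv, map_zpow, hn', mul_inv_cancel]
      have h3 : x = x * (b ^ n)⁻¹ * b ^ n := by group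
      rw [h3]
      exact Subgroup.mul_mem_sup h2 (Subgroup.zpow_mem _ (Subgroup.mem_zpowers b) n)
  have hCL : C L := hM L h1
  have hle : L ≤ V.comap π := by
    rw [hLe]
    exact Subgroup.comap_mono (by rw [Subgroup.zpowers_le]; exact hcV)
  have hfin : (L.subgroupOf (V.comap π)).FiniteIndex := by
    refine ⟨?_⟩
    change Subgroup.relIndex _ _ ≠ 0
    rw [hLe, Subgroup.relIndex_comap, Subgroup.map_comap_eq_self_of_surjective hπ]
    exact hc
  refine hC.base.finiteIndex _ (L.subgroupOf (V.comap π)) hfin ?_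
  refine hC.base.of_injective _ _ (Subgroup.subgroupOfEquivOfLe hle).toMonoidHom ?_ hCL
  exact (Subgroup.subgroupOfEquivOfLe hle).injective

/-- a group with a chain of normal subgroups with abelian quotients -/
theorem chain_quot (hC : ClosedE C) (hM : ∀ (G : Type) [Group G], derivedSeries G 2 = ⊥ → C G)
    {Γ : Type} [Group Γ] (N : ℕ → Subgroup Γ) [hN : ∀ k, (N k).Normal]
    (hmono : ∀ k, N (k + 1) ≤ N k)
    (hcomm : ∀ k, ∀ x ∈ N k, ∀ y ∈ N k, x * y * x⁻¹ * y⁻¹ ∈ N (k + 1))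
    (h0 : C (Γ ⧸ N 0)) (k : ℕ) : C (Γ ⧸ N k) := by
  induction k with
  | zero => exact h0
  | succ k ih =>
    let π : Γ ⧸ N (k + 1) →* Γ ⧸ N k :=
      QuotientGroup.map (N (k + 1)) (N k) (MonoidHom.id Γ) (fun x hx => hmono k hx)
    refine ab_ker hC hM π ?_ ?_ ih
    · intro x
      obtain ⟨x, rfl⟩ := QuotientGroup.mk_surjective x
      exact ⟨QuotientGroup.mk x, rfl⟩
    · intro a b ha hb
      obtain ⟨x, rfl⟩ := QuotientGroup.mk_surjective a
      obtain ⟨y, rfl⟩ := QuotientGroup.mk_surjective b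
      have hx : x ∈ N k := (QuotientGroup.eq_one_iff x).1 ha
      have hy : y ∈ N k := (QuotientGroup.eq_one_iff y).1 hb
      change (QuotientGroup.mk (x * y) : Γ ⧸ N (k + 1)) = QuotientGroup.mk (y * x)
      rw [QuotientGroup.eq]
      have h1 := hcomm k y⁻¹ (inv_mem hy) x⁻¹ (inv_mem hx)
      have e : y⁻¹ * x⁻¹ * (y⁻¹)⁻¹ * (x⁻¹)⁻¹ = (x * y)⁻¹ * (y * x) := by group
      rwa [e] at h1

/-- **groups of matrices of size two over a division ring with a discrete valuation** -/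
theorem main_val (hC : ClosedE C) (hM : ∀ (G : Type) [Group G], derivedSeries G 2 = ⊥ → C G)
    {K : Type} [DivisionRing K] (V : DV K) {Γ : Type} [Group Γ] (ρ : Γ →* G2 K) (c : ℤ)
    (hns : ∀ x, V.NS c (ρ x)) (N : ℕ → Subgroup Γ) [hN : ∀ k, (N k).Normal]
    (hmono : ∀ k, N (k + 1) ≤ N k)
    (hcomm : ∀ k, ∀ x ∈ N k, ∀ y ∈ N k, x * y * x⁻¹ * y⁻¹ ∈ N (k + 1))
    (h0 : C (Γ ⧸ N 0))
    (hsep : ∀ n : ℕ, ∃ k, ∀ x ∈ N k, V.EB (-(n : ℤ)) (ρ x).val → x = 1) : C Γ := by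
  let act : MulAction Γ V.Vt := MulAction.compHom V.Vt ρ
  refine Pool.Agent.N24.TR.tree_local hC V.isTree (fun g u w h => V.tr_act (ρ g) u w h) ?_
  intro u
  obtain ⟨n, hn⟩ := DV.stab (V := V) c u
  obtain ⟨k, hk⟩ := hsep n
  refine ⟨Γ ⧸ N k, inferInstance, QuotientGroup.mk' (N k), chain_quot hC hM N hmono hcomm h0 k, ?_⟩
  intro g hg h1
  refine hk g ((QuotientGroup.eq_one_iff g).1 h1) (hn (ρ g) (fun m => ?_) hg)
  rw [← map_zpow]
  exact hns _

/-- if the chain is finite, no valuation is needed -/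
theorem chain_end (hC : ClosedE C) (hM : ∀ (G : Type) [Group G], derivedSeries G 2 = ⊥ → C G)
    {Γ : Type} [Group Γ] (N : ℕ → Subgroup Γ) [hN : ∀ k, (N k).Normal]
    (hmono : ∀ k, N (k + 1) ≤ N k)
    (hcomm : ∀ k, ∀ x ∈ N k, ∀ y ∈ N k, x * y * x⁻¹ * y⁻¹ ∈ N (k + 1))
    (h0 : C (Γ ⧸ N 0)) (k : ℕ) (hk : ∀ x ∈ N k, x = 1) : C Γ := by
  refine hC.base.of_injective _ _ (QuotientGroup.mk' (N k)) ?_ (chain_quot hC hM N hmono hcomm h0 k)
  rw [injective_iff_map_eq_one]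
  intro x hx
  exact hk x ((QuotientGroup.eq_one_iff x).1 hx)

end Pool.Agent.U919.NV
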