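import Pool.Agent.U919.NV.Ore

/-!
# Homomorphisms to polynomial rings, graded rings and polynomial rings
-/

set_option autoImplicit false

namespace Pool.Agent.U919.NV

open Pool.Agent.Y110.FJ (ClosedE)
open Pool.Agent.U919.GE (G2 mp mp_apply)
open Polynomial

variable {C : ∀ (G : Type) [Group G], Prop}

section poly

variable {R Q : Type} [Ring R] [Ring Q]

/-- the elements which are divisible by `X ^ n` in the polynomial ring -/
def FX (Φ : R →+* Polynomial Q) (n : ℕ) : AddSubgroup R where
  carrier := {r | ∀ i < n, (Φ r).coeff i = 0}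
  zero_mem' := by
    intro i _
    rw [map_zero, Polynomial.coeff_zero]
  add_mem' := by
    intro a b ha hb i hi
    rw [map_add, Polynomial.coeff_add, ha i hi, hb i hi, add_zero]
  neg_mem' := by
    intro a ha i hi
    rw [map_neg, Polynomial.coeff_neg, ha i hi, neg_zero]

theorem mem_FX {Φ : R →+* Polynomial Q} {n : ℕ} {r : R} : r ∈ FX Φ n ↔ ∀ i < n, (Φ r).coeff i = 0 :=
  Iff.rfl

theorem filt_FX (Φ : R →+* Polynomial Q) : Filt (FX Φ) where
  top := fun r i hi => absurd hi (Nat.not_lt_zero i)
  anti := fun n r hr i hi => hr i (hi.trans (Nat.lt_succ_self n))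
  mul := by
    intro m n x y hx hy i hi
    rw [map_mul, Polynomial.coeff_mul]
    apply Finset.sum_eq_zero
    rintro ⟨a, b⟩ hab
    have hab := Finset.HasAntidiagonal.mem_antidiagonal.1 hab
    have hab : a + b = i := hab
    rcases (by omega : a < m ∨ b < n) with h | h
    · rw [hx a h, zero_mul]
    · rw [hy b h, mul_zero]

/-- **Specialization**: a group of matrices of size two over an Ore domain contained in a polynomial ring
is in `C` if its image at `X = 0` is. -/
theorem main_poly (hC : ClosedE C) (hM : ∀ (G : Type) [Group G], derivedSeries G 2 = ⊥ → C G)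
    [Nontrivial R] [NoZeroDivisors R] [NoZeroDivisors Q] (hO : LeftOre R)
    (Φ : R →+* Polynomial Q) (hΦ : Function.Injective Φ) (Γ : Subgroup (G2 R))
    (hΓ : C (Γ.map (mp (Polynomial.constantCoeff.comp Φ)))) : C Γ := by
  have hne : ∀ r, r ≠ 0 → Φ r ≠ 0 := fun r hr => (map_ne_zero_iff Φ hΦ).2 hr
  have hδ : IsDeg (fun r : R => (Φ r).natDegree) := by
    refine ⟨fun a b ha hb => ?_, fun a b _ _ _ => ?_⟩
    · show (Φ (a * b)).natDegree = _
      rw [map_mul, Polynomial.natDegree_mul (hne a ha) (hne b hb)]
    · show (Φ (a + b)).natDegree ≤ _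
      rw [map_add]
      exact Polynomial.natDegree_add_le _ _
  refine main_ore hC hM hO hδ (filt_FX Φ) (Polynomial.constantCoeff.comp Φ) ?_ ?_ Γ hΓ
  · intro r
    rw [mem_FX]
    constructor
    · intro h
      exact h 0 Nat.one_pos
    · intro h i hi
      have : i = 0 := by omega
      subst this
      exact h
  · intro n
    refine ⟨n + 1, fun r hr h0 => ?_⟩
    show n < (Φ r).natDegree
    by_contra hcon
    push Not at hcon
    have h1 := hr (Φ r).natDegree (by omega)
    exact hne r h0 (Polynomial.leadingCoeff_eq_zero.1 h1)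

theorem mp_inj {A B : Type} [Ring A] [Ring B] {f : A →+* B} (hf : Function.Injective f) :
    Function.Injective (mp f) := by
  intro a b hab
  apply Units.ext
  ext i j
  apply hf
  have : (mp f a).val i j = (mp f b).val i j := by rw [hab]
  exact this

theorem spec_hom (hC : ClosedE C) (hM : ∀ (G : Type) [Group G], derivedSeries G 2 = ⊥ → C G)
    [Nontrivial R] [NoZeroDivisors R] [NoZeroDivisors Q] (hO : LeftOre R)
    (Φ : R →+* Polynomial Q) (hΦ : Function.Injective Φ) (S : Subring Q)
    (hS : ∀ r, (Φ r).coeff 0 ∈ S) (h : C (G2 S)) : C (G2 R) := by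
  have h1 : C (⊤ : Subgroup (G2 R)) := by
    refine main_poly hC hM hO Φ hΦ ⊤ ?_
    let ψ : R →+* S := (Polynomial.constantCoeff.comp Φ).codRestrict S hS
    have hle : (⊤ : Subgroup (G2 R)).map (mp (Polynomial.constantCoeff.comp Φ)) ≤
        (mp S.subtype).range := by
      rintro _ ⟨g, -, rfl⟩
      refine ⟨mp ψ g, ?_⟩
      apply Units.ext
      ext i j
      rfl
    have hinj : Function.Injective (mp S.subtype) := mp_inj (fun a b hab => Subtype.ext hab)
    have h2 : C (mp S.subtype).range := by
      refine hC.base.of_injective _ _ (MonoidHom.ofInjective hinj).symm.toMonoidHom ?_ h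
      exact (MonoidHom.ofInjective hinj).symm.injective
    exact hC.base.of_injective _ _ (Subgroup.inclusion hle) (Subgroup.inclusion_injective hle) h2
  exact hC.base.of_injective _ _ (Subgroup.topEquiv (G := G2 R)).symm.toMonoidHom
    (Subgroup.topEquiv (G := G2 R)).symm.injective h1

end poly

section graded

variable {R : Type} [Ring R] (𝒜 : ℕ → AddSubgroup R) [GradedRing 𝒜]

/-- the homomorphism from a graded ring to the polynomial ring: `r ↦ ∑ r_i t ^ i` (helper709) -/
noncomputable def toPoly : R →+* Polynomial R :=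
  (DirectSum.toSemiring
    (fun i => (Polynomial.monomial i).toAddMonoidHom.comp (𝒜 i).subtype)
    (by
      change Polynomial.monomial 0 ((1 : 𝒜 0) : R) = 1
      rw [SetLike.GradeZero.coe_one]
      rfl)
    (by
      intro i j a b
      exact (Polynomial.monomial_mul_monomial i j (a : R) (b : R)).symm)).comp (DirectSum.decomposeRingEquiv 𝒜).toRingHom

theorem toPoly_hom {i : ℕ} {a : R} (ha : a ∈ 𝒜 i) : toPoly 𝒜 a = Polynomial.monomial i a := by
  unfold toPoly
  rw [RingHom.comp_apply]
  have h1 : (DirectSum.decomposeRingEquiv 𝒜).toRingHom a = DirectSum.of (fun i => 𝒜 i) i ⟨a, ha⟩ :=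
    DirectSum.decompose_of_mem 𝒜 ha
  rw [h1]
  exact DirectSum.toSemiring_of _ _ _ _ _

theorem toPoly_eval (r : R) : (toPoly 𝒜 r).sum (fun _ a => a) = r := by
  have key : ∀ p q : Polynomial R, (p + q).sum (fun _ a => a) =
      p.sum (fun _ a => a) + q.sum (fun _ a => a) := fun p q =>
    Polynomial.sum_add_index p q _ (fun _ => rfl) (fun _ _ _ => rfl)
  induction r using DirectSum.Decomposition.inductionOn 𝒜 with
  | zero =>
    rw [map_zero]
    exact Polynomial.sum_zero_index _
  | homogeneous m =>
    rw [toPoly_hom 𝒜 m.2]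
    exact Polynomial.sum_monomial_index _ _ rfl
  | add a b ha hb => rw [map_add, key, ha, hb]

theorem toPoly_coeff (r : R) : (toPoly 𝒜 r).coeff 0 ∈ 𝒜 0 := by
  induction r using DirectSum.Decomposition.inductionOn 𝒜 with
  | zero =>
    rw [map_zero, Polynomial.coeff_zero]
    exact zero_mem _
  | homogeneous m =>
    rename_i i
    rw [toPoly_hom 𝒜 m.2, Polynomial.coeff_monomial]
    split_ifs with h
    · subst h
      exact m.2
    · exact zero_mem _
  | add a b ha hb =>
    rw [map_add, Polynomial.coeff_add]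
    exact add_mem ha hb

/-- **graded Ore domains** -/
theorem graded (hC : ClosedE C) (hM : ∀ (G : Type) [Group G], derivedSeries G 2 = ⊥ → C G)
    [Nontrivial R] [NoZeroDivisors R] (hO : LeftOre R) :
    C (G2 R) ↔ C (G2 (SetLike.GradeZero.subring 𝒜)) := by
  constructor
  · intro h
    exact hC.base.of_injective _ _ (mp (SetLike.GradeZero.subring 𝒜).subtype)
      (mp_inj (fun a b hab => Subtype.ext hab)) h
  · intro h
    refine spec_hom hC hM hO (toPoly 𝒜) ?_ (SetLike.GradeZero.subring 𝒜) (toPoly_coeff 𝒜) h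
    intro a b hab
    rw [← toPoly_eval 𝒜 a, hab, toPoly_eval]

end graded

section ore

variable {Q : Type} [Ring Q] [Nontrivial Q] [NoZeroDivisors Q]

/-- pseudo-division -/
theorem pseudo_div (hO : LeftOre Q) {b : Polynomial Q} (hb : b ≠ 0) (n : ℕ) :
    ∀ a : Polynomial Q, (∀ i, n ≤ i → a.coeff i = 0) → ∃ (s : Q) (q r : Polynomial Q), s ≠ 0 ∧
      Polynomial.C s * a = q * b + r ∧ ∀ i, b.natDegree ≤ i → r.coeff i = 0 := by
  induction n with
  | zero =>
    intro a ha
    exact ⟨1, 0, a, one_ne_zero, by simp, fun i _ => ha i (Nat.zero_le i)⟩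
  | succ n ih =>
    intro a ha
    by_cases h1 : n < b.natDegree
    · exact ⟨1, 0, a, one_ne_zero, by simp, fun i hi => ha i (by omega)⟩
    push Not at h1
    obtain ⟨c, d, hd, hcd⟩ := hO (a.coeff n) b.leadingCoeff (Polynomial.leadingCoeff_ne_zero.2 hb)
    obtain ⟨k, hk⟩ : ∃ k, n = b.natDegree + k := ⟨n - b.natDegree, by omega⟩
    obtain ⟨s, q, r, hs, e, hr⟩ := ih (Polynomial.C d * a - Polynomial.monomial k c * b) (by
      intro i hi
      obtain ⟨l, rfl⟩ : ∃ l, i = l + k := ⟨i - k, by omega⟩
      rw [Polynomial.coeff_sub, Polynomial.coeff_C_mul, Polynomial.coeff_monomial_mul]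
      by_cases hl : l = b.natDegree
      · subst hl
        have h2 : b.coeff b.natDegree = b.leadingCoeff := rfl
        rw [← hk, h2, hcd, sub_self]
      · rw [ha (l + k) (by omega), Polynomial.coeff_eq_zero_of_natDegree_lt (by omega : b.natDegree < l),
          mul_zero, mul_zero, sub_self])
    refine ⟨s * d, q + Polynomial.C s * Polynomial.monomial k c, r, mul_ne_zero hs hd, ?_, hr⟩
    rw [mul_sub] at e
    rw [Polynomial.C_mul, mul_assoc, add_mul, mul_assoc (Polynomial.C s), add_right_comm, ← e,
      sub_add_cancel]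

/-- polynomial rings over Ore domains are Ore domains -/
theorem leftOre_poly (hO : LeftOre Q) : LeftOre (Polynomial Q) := by
  have key : ∀ (m : ℕ) (b : Polynomial Q), b ≠ 0 → b.natDegree = m → ∀ a : Polynomial Q,
      ∃ c d : Polynomial Q, d ≠ 0 ∧ d * a = c * b := by
    intro m
    induction m using Nat.strong_induction_on with
    | _ m ih =>
      intro b hb hm a
      obtain ⟨s, q, r, hs, e, hr⟩ := pseudo_div hO hb (a.natDegree + 1) a (fun i hi =>
        Polynomial.coeff_eq_zero_of_natDegree_lt (by omega))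
      have hCs : Polynomial.C s ≠ 0 := Polynomial.C_ne_zero.2 hs
      by_cases hr0 : r = 0
      · rw [hr0, add_zero] at e
        exact ⟨q, Polynomial.C s, hCs, e⟩
      · have h1 : r.natDegree < b.natDegree := by
          by_contra hcon
          push Not at hcon
          exact hr0 (Polynomial.leadingCoeff_eq_zero.1 (hr _ hcon))
        obtain ⟨c', d', hd', h2⟩ := ih r.natDegree (by omega) r hr0 rfl b
        have hc' : c' ≠ 0 := by
          rintro rfl
          rw [zero_mul] at h2
          exact mul_ne_zero hd' hb h2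
        refine ⟨c' * q + d', c' * Polynomial.C s, mul_ne_zero hc' hCs, ?_⟩
        rw [mul_assoc, e, mul_add, ← h2, add_mul, mul_assoc]
  intro a b hb
  exact key _ b hb rfl a

theorem poly_iff (hC : ClosedE C) (hM : ∀ (G : Type) [Group G], derivedSeries G 2 = ⊥ → C G)
    (hO : LeftOre Q) : C (G2 (Polynomial Q)) ↔ C (G2 Q) := by
  constructor
  · intro h
    exact hC.base.of_injective _ _ (mp (Polynomial.C : Q →+* Polynomial Q))
      (mp_inj Polynomial.C_injective) h
  · intro h
    refine spec_hom hC hM (leftOre_poly hO) (RingHom.id _) (fun _ _ h => h) ⊤ (fun _ => trivial) ?_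
    exact hC.base.of_injective _ _ (mp (⊤ : Subring Q).subtype)
      (mp_inj (fun a b hab => Subtype.ext hab)) h

end ore

end Pool.Agent.U919.NV
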