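import Pool.Agent.U919.NV.Grad
import Pool.Agent.U919.GE.Law
import Pool.Agent.U919.GE.Int

/-!
# Statements on groups of matrices of size two over noncommutative rings
-/

set_option autoImplicit false

namespace Pool.Agent.U919.NV.Law

open Pool.Agent.U919.GE (G2)
open Pool.Agent.U919.GE.Law (Cl InC img)

/-- A descending chain of normal subgroups such that the commutators of the elements of each of them are in
the next one; the first one is the kernel of the homomorphism `π`. -/
structure Chain {Γ P : Type} [Group Γ] [Group P] (π : Γ →* P) (N : ℕ → Subgroup Γ) : Prop where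
  normal : ∀ k, (N k).Normal
  anti : ∀ k, N (k + 1) ≤ N k
  comm : ∀ k, ∀ x ∈ N k, ∀ y ∈ N k, x * y * x⁻¹ * y⁻¹ ∈ N (k + 1)
  ker : ∀ x, x ∈ N 0 ↔ π x = 1

/-- the group `Γ` of matrices of size two over the division ring with the valuation `V` is discrete: no
element has only entries of valuation greater than `c` (or zero); and for each `n` some `N k` contains no
matrix but `1` whose entries have valuations at least `-n` -/
structure Disc {K Γ : Type} [DivisionRing K] [Group Γ] (V : DV K) (ρ : Γ →* G2 K)
    (N : ℕ → Subgroup Γ) : Prop where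
  large : ∃ c : ℤ, ∀ x : Γ, ∃ i j, (ρ x).val i j ≠ 0 ∧ V.v ((ρ x).val i j) ≤ c
  sep : ∀ n : ℕ, ∃ k, ∀ x ∈ N k, (∀ i j, (ρ x).val i j ≠ 0 → -(n : ℤ) ≤ V.v ((ρ x).val i j)) → x = 1

/-- discrete groups of matrices of size two over a division ring, commutative or not, with a discrete
valuation: if there is a chain as above, such a group is in `C` if its quotient by the first subgroup of the
chain is contained in a group in `C` -/
def Groups (C : ∀ (G : Type) [Group G], Prop) : Prop :=
  ∀ (K Γ P : Type) [DivisionRing K] [Group Γ] [Group P] (V : DV K) (ρ : Γ →* G2 K) (π : Γ →* P)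
    (N : ℕ → Subgroup Γ), Chain π N → Disc V ρ N → C P → C Γ

/-- `F` is a descending multiplicative filtration of the ring `R`, `F 1` is the kernel of `φ`, and for each
`n` some `F k` contains no nonzero element of degree at most `n` -/
structure Sep {R S : Type} [Ring R] [Ring S] (φ : R →+* S) (δ : R → ℕ) (F : ℕ → AddSubgroup R) : Prop where
  filt : Filt F
  ker : ∀ r, r ∈ F 1 ↔ φ r = 0
  sep : ∀ n : ℕ, ∃ k, ∀ r ∈ F k, r ≠ 0 → n < δ r

/-- groups of matrices of size two over a left Ore domain with a degree function and a separated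
filtration: such a group is in `C` if its image under `φ` is -/
def OreDomains (C : ∀ (G : Type) [Group G], Prop) : Prop :=
  ∀ (R S : Type) [Ring R] [Nontrivial R] [NoZeroDivisors R] [Ring S] (φ : R →+* S) (δ : R → ℕ)
    (F : ℕ → AddSubgroup R), LeftOre R → IsDeg δ → Sep φ δ F →
      ∀ H : Subgroup (G2 R), InC C (img φ H) → InC C H

/-- for a left Ore domain contained in a polynomial ring over a domain: a group of matrices of size two over
it is in `C` if its image at `X = 0` is -/
def Specialization (C : ∀ (G : Type) [Group G], Prop) : Prop :=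
  ∀ (R Q : Type) [Ring R] [Nontrivial R] [NoZeroDivisors R] [Ring Q] [NoZeroDivisors Q]
    (Φ : R →+* Polynomial Q), LeftOre R → Function.Injective Φ →
      ∀ H : Subgroup (G2 R), InC C (img (Polynomial.constantCoeff.comp Φ) H) → InC C H

/-- for a graded left Ore domain `R = R_0 + R_1 + ...`: `GL_2(R)` is in `C` iff `GL_2(R_0)` is; in particular
if `R_0` is finite or isomorphic to the ring of the integers -/
def Graded (C : ∀ (G : Type) [Group G], Prop) : Prop :=
  ∀ (R : Type) [Ring R] [Nontrivial R] [NoZeroDivisors R] (𝒜 : ℕ → AddSubgroup R) [GradedRing 𝒜],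
    LeftOre R → (C (G2 R) ↔ C (G2 (SetLike.GradeZero.subring 𝒜))) ∧
      (Finite (SetLike.GradeZero.subring 𝒜) → C (G2 R)) ∧
      ((SetLike.GradeZero.subring 𝒜) ≃+* ℤ → C (G2 R))

/-- the polynomial ring in a central variable over a left Ore domain `Q` is a left Ore domain, and
`GL_2(Q[X])` is in `C` iff `GL_2(Q)` is -/
def PolyRings (C : ∀ (G : Type) [Group G], Prop) : Prop :=
  ∀ (Q : Type) [Ring Q] [Nontrivial Q] [NoZeroDivisors Q], LeftOre Q →
    LeftOre (Polynomial Q) ∧ (C (G2 (Polynomial Q)) ↔ C (G2 Q))

variable {C : ∀ (G : Type) [Group G], Prop}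

theorem groups (hC : Cl C) : Groups C := by
  intro K Γ P _ _ _ V ρ π N hN hD hP
  obtain ⟨c, hc⟩ := hD.large
  have := hN.normal
  refine main_val hC.closed hC.metabelian V ρ c (fun x => hc x) N hN.anti hN.comm ?_ ?_
  · refine hC.closed.base.of_injective _ _ (QuotientGroup.lift (N 0) π (fun x hx => (hN.ker x).1 hx)) ?_ hP
    rw [injective_iff_map_eq_one]
    intro a ha
    obtain ⟨x, rfl⟩ := QuotientGroup.mk_surjective a
    exact (QuotientGroup.eq_one_iff x).2 ((hN.ker x).2 ha)
  · intro n
    obtain ⟨k, hk⟩ := hD.sep n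
    exact ⟨k, fun x hx hb => hk x hx (fun i j => hb i j)⟩

theorem oreDomains (hC : Cl C) : OreDomains C := by
  intro R S _ _ _ _ φ δ F hO hδ hF H hH
  exact main_ore hC.closed hC.metabelian hO hδ hF.filt φ hF.ker hF.sep H hH

theorem specialization (hC : Cl C) : Specialization C := by
  intro R Q _ _ _ _ _ Φ hO hΦ H hH
  exact main_poly hC.closed hC.metabelian hO Φ hΦ H hH

theorem C_fin (hC : Cl C) (G : Type) [Group G] [Finite G] : C G := by
  obtain ⟨hC, hM⟩ := hC
  have h0 : C Unit := hM Unit (by
    rw [eq_bot_iff]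
    intro x _
    exact Subgroup.mem_bot.2 rfl)
  refine hC.base.finiteIndex _ (⊥ : Subgroup G) inferInstance ?_
  refine hC.base.of_injective _ Unit 1 ?_ h0
  intro a b _
  exact Subsingleton.elim _ _

theorem graded (hC : Cl C) : Graded C := by
  intro R _ _ _ 𝒜 _ hO
  have h := NV.graded 𝒜 hC.closed hC.metabelian hO
  refine ⟨h, ?_, ?_⟩
  · intro hf
    have : Finite (G2 (SetLike.GradeZero.subring 𝒜)) :=
      Finite.of_injective (fun g : G2 (SetLike.GradeZero.subring 𝒜) => g.val) (fun a b h => Units.ext h)
    exact h.2 (C_fin hC _)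
  · intro e
    exact h.2 (hC.closed.base.of_injective _ _ (Pool.Agent.U919.GE.mp e.toRingHom)
      (mp_inj e.injective) (Pool.Agent.U919.GE.C_G2_int hC.closed.base))

theorem polyRings (hC : Cl C) : PolyRings C := by
  intro Q _ _ _ hO
  exact ⟨leftOre_poly hO, poly_iff hC.closed hC.metabelian hO⟩

end Pool.Agent.U919.NV.Law
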