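import Pool.Agent.U919.NV.Val

/-!
# The levels of the invertible matrices of size two over a division ring with a discrete valuation
-/

set_option autoImplicit false

namespace Pool.Agent.U919.NV

open Pool.Agent.U919.GE (G2 up low dgl)

namespace DV

variable {K : Type} [DivisionRing K] {V : DV K}

variable (V) in
/-- the distance of the vertices of `1` and `g` is at most `n` -/
def E (n : ℤ) (g : G2 K) : Prop := ∃ m : ℤ, V.EB m g.val ∧ V.EB (-m - n) (g⁻¹).val

theorem E_mul {m n : ℤ} {g h : G2 K} (hg : V.E m g) (hh : V.E n h) : V.E (m + n) (g * h) := by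
  obtain ⟨a, h1, h2⟩ := hg
  obtain ⟨b, h3, h4⟩ := hh
  refine ⟨a + b, EB_mul h1 h3, ?_⟩
  rw [mul_inv_rev]
  exact EB_mono (by omega) (EB_mul h4 h2)

theorem E_inv {n : ℤ} {g : G2 K} (hg : V.E n g) : V.E n g⁻¹ := by
  obtain ⟨m, h1, h2⟩ := hg
  refine ⟨-m - n, h2, ?_⟩
  rw [inv_inv]
  exact EB_mono (by omega) h1

theorem E_one : V.E 0 (1 : G2 K) := by
  refine ⟨0, EB_one, ?_⟩
  rw [inv_one]
  exact EB_one

theorem E_nonneg {n : ℤ} {g : G2 K} (hg : V.E n g) : 0 ≤ n := by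
  obtain ⟨m, h1, h2⟩ := hg
  have h3 := EB_mul h1 h2 0 0
  rw [Units.mul_inv, Matrix.one_apply_eq] at h3
  have h4 := h3 one_ne_zero
  rw [V.v_one] at h4
  omega

theorem exE (g : G2 K) : ∃ n : ℕ, V.E n g := by
  obtain ⟨m, h1, -⟩ := V.exists_Mn g
  obtain ⟨m', h2, -⟩ := V.exists_Mn g⁻¹
  refine ⟨(-m - m').toNat, m, h1, EB_mono ?_ h2⟩
  omega

variable (V) in
open Classical in
/-- the level -/
noncomputable def lev (g : G2 K) : ℕ := Nat.find (exE (V := V) g)

theorem lev_spec (g : G2 K) : V.E (V.lev g) g := by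
  classical
  exact Nat.find_spec (exE (V := V) g)

theorem lev_le {n : ℤ} {g : G2 K} (h : V.E n g) : (V.lev g : ℤ) ≤ n := by
  classical
  have h0 := E_nonneg h
  obtain ⟨k, rfl⟩ := Int.eq_ofNat_of_zero_le h0
  exact_mod_cast Nat.find_min' (exE (V := V) g) h

theorem lev_mul {s : G2 K} (hs : V.E 0 s) (g : G2 K) : V.lev (g * s) = V.lev g := by
  have h1 := lev_le (E_mul (lev_spec (V := V) g) hs)
  have h2 := lev_le (E_mul (lev_spec (V := V) (g * s)) (E_inv hs))
  rw [mul_inv_cancel_right] at h2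
  omega

/-- the level in terms of the least valuation of the entries and the valuations of the entries of the
inverse -/
theorem lev_eq {m D : ℤ} {g : G2 K} (hm : V.Mn m g.val) (hD : V.Inv D g) :
    (V.lev g : ℤ) = D - 2 * m := by
  obtain ⟨h1, i, j, hne, hv⟩ := hm
  apply le_antisymm
  · apply lev_le
    refine ⟨m, h1, fun a b => ?_⟩
    rcases hD a b with ⟨h2, -⟩ | ⟨-, h3, h4⟩
    · rw [h2]
      exact L_zero _
    · intro _
      have := h1 _ _ h3
      omega
  · obtain ⟨a, h2, h3⟩ := lev_spec (V := V) g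
    have h4 := hD (Fin.rev j) (Fin.rev i)
    rw [Fin.rev_rev, Fin.rev_rev] at h4
    rcases h4 with ⟨-, h5⟩ | ⟨h5, -, h6⟩
    · exact absurd h5 hne
    · have h7 := h3 _ _ h5
      have h8 := h2 i j hne
      omega

variable (V) in
/-- the stabilizer of the base vertex -/
def S : Subgroup (G2 K) where
  carrier := {g | V.E 0 g}
  one_mem' := E_one
  mul_mem' := fun {a b} ha hb => by
    have := E_mul (V := V) ha hb
    rwa [add_zero] at this
  inv_mem' := fun {a} ha => E_inv ha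

theorem mem_S {g : G2 K} : g ∈ V.S ↔ V.E 0 g := Iff.rfl

variable (V) in
/-- the invertible matrices over the valuation ring -/
def S0 : Subgroup (G2 K) where
  carrier := {g | V.EB 0 g.val ∧ V.EB 0 (g⁻¹).val}
  one_mem' := ⟨EB_one, by rw [inv_one]; exact EB_one⟩
  mul_mem' := by
    rintro a b ⟨h1, h2⟩ ⟨h3, h4⟩
    refine ⟨EB_mul h1 h3, ?_⟩
    rw [mul_inv_rev]
    exact EB_mul h4 h2
  inv_mem' := by
    rintro a ⟨h1, h2⟩
    refine ⟨h2, ?_⟩
    rw [inv_inv]
    exact h1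

theorem mem_S0 {g : G2 K} : g ∈ V.S0 ↔ V.EB 0 g.val ∧ V.EB 0 (g⁻¹).val := Iff.rfl

theorem S0_le {g : G2 K} (h : g ∈ V.S0) : g ∈ V.S := ⟨0, h.1, EB_mono (by omega) h.2⟩

theorem Mn_mul {m : ℤ} {g k : G2 K} (hg : V.Mn m g.val) (hk : k ∈ V.S0) : V.Mn m (g * k).val := by
  obtain ⟨h1, i, j, hne, hv⟩ := hg
  have h2 : V.EB m (g * k).val := EB_mono (by omega) (EB_mul h1 hk.1)
  refine ⟨h2, ?_⟩
  by_contra hcon
  push Not at hcon
  have h3 : V.EB (m + 1) (g * k).val := by
    intro a b h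
    have h4 := h2 a b h
    have h5 := hcon a b h
    omega
  have h6 := EB_mul h3 hk.2 i j
  have h7 : (g * k).val * (k⁻¹).val = g.val := by
    rw [← Units.val_mul, mul_inv_cancel_right]
  rw [h7] at h6
  have := h6 hne
  omega

variable (V)

/-- the matrix `(1 0; 0 w)` -/
def t : G2 K := dgl 1 (Units.mk0 V.w V.w_ne)

/-- the matrix `(w^n 0; 0 w^n)` -/
def sc (n : ℤ) : G2 K := dgl (Units.mk0 V.w V.w_ne ^ n) (Units.mk0 V.w V.w_ne ^ n)

/-- the matrix `(0 1; 1 0)` -/
def fl (K : Type) [DivisionRing K] : G2 K where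
  val := !![0, 1; 1, 0]
  inv := !![0, 1; 1, 0]
  val_inv := by
    ext i j; fin_cases i <;> fin_cases j <;> simp [Matrix.mul_apply, Fin.sum_univ_two]
  inv_val := by
    ext i j; fin_cases i <;> fin_cases j <;> simp [Matrix.mul_apply, Fin.sum_univ_two]

variable {V}

theorem t_val : (V.t).val = !![1, 0; 0, V.w] := rfl

theorem t_inv : (V.t⁻¹).val = !![1, 0; 0, V.w⁻¹] := by
  show !![((1 : Kˣ)⁻¹ : Kˣ).val, 0; 0, ((Units.mk0 V.w V.w_ne)⁻¹ : Kˣ).val] = _
  rw [inv_one, Units.val_one, Units.val_inv_eq_inv_val, Units.val_mk0]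

theorem mul_t (g : G2 K) (i : Fin 2) : (g * V.t).val i 0 = g.val i 0 ∧
    (g * V.t).val i 1 = g.val i 1 * V.w := by
  rw [Units.val_mul, mul_entry, mul_entry, t_val]
  simp

theorem inv_t (g : G2 K) (j : Fin 2) : ((g * V.t)⁻¹).val 0 j = (g⁻¹).val 0 j ∧
    ((g * V.t)⁻¹).val 1 j = V.w⁻¹ * (g⁻¹).val 1 j := by
  rw [mul_inv_rev, Units.val_mul, mul_entry, mul_entry, t_inv]
  simp

theorem fl_mem : fl K ∈ V.S0 := by
  have h : ∀ i j : Fin 2, V.L 0 ((!![0, 1; 1, 0] : Matrix (Fin 2) (Fin 2) K) i j) := by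
    intro i j
    fin_cases i <;> fin_cases j
    · exact L_zero _
    · exact L_one
    · exact L_one
    · exact L_zero _
  exact ⟨h, h⟩

theorem low_mem {s : K} (hs : V.L 0 s) : low s ∈ V.S0 := by
  have h : ∀ x : K, V.L 0 x → ∀ i j : Fin 2, V.L 0 ((!![1, 0; x, 1] : Matrix (Fin 2) (Fin 2) K) i j) := by
    intro x hx i j
    fin_cases i <;> fin_cases j
    · exact L_one
    · exact L_zero _
    · exact hx
    · exact L_one
  exact ⟨h s hs, h (-s) (L_neg hs)⟩

theorem Inv_t {D : ℤ} {g : G2 K} (hD : V.Inv D g) : V.Inv (D + 1) (g * V.t) := by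
  have hw := V.w_ne
  have hwi := inv_ne_zero V.w_ne
  have A : ∀ x y : K, V.Rl D x y → V.Rl (D + 1) x (y * V.w) := by
    rintro x y (⟨h1, h2⟩ | ⟨h1, h2, h3⟩)
    · exact Or.inl ⟨h1, by rw [h2, zero_mul]⟩
    · refine Or.inr ⟨h1, mul_ne_zero h2 hw, ?_⟩
      rw [V.map_mul _ _ h2 hw, V.v_w, h3]
      omega
  have B : ∀ x y : K, V.Rl D x y → V.Rl (D + 1) (V.w⁻¹ * x) y := by
    rintro x y (⟨h1, h2⟩ | ⟨h1, h2, h3⟩)
    · exact Or.inl ⟨by rw [h1, mul_zero], h2⟩
    · refine Or.inr ⟨mul_ne_zero hwi h1, h2, ?_⟩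
      rw [V.map_mul _ _ hwi h1, V.v_inv hw, V.v_w, h3]
      omega
  intro i j
  have h := hD i j
  rcases (by omega : i = 0 ∨ i = 1) with rfl | rfl
  · rw [(inv_t g j).1]
    have e : (Fin.rev 0 : Fin 2) = 1 := rfl
    rw [e] at h ⊢
    rw [(mul_t g _).2]
    exact A _ _ h
  · rw [(inv_t g j).2]
    have e : (Fin.rev 1 : Fin 2) = 0 := rfl
    rw [e] at h ⊢
    rw [(mul_t g _).1]
    exact B _ _ h

/-- the level goes up if the first column contains an entry of the least valuation -/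
theorem lev_up {m : ℤ} {g : G2 K} (hm : V.Mn m g.val) {i : Fin 2} (h0 : g.val i 0 ≠ 0)
    (hv : V.v (g.val i 0) = m) : (V.lev (g * V.t) : ℤ) = V.lev g + 1 := by
  obtain ⟨D, hD⟩ := V.exists_inv g
  have h1 := lev_eq hm hD
  have hm' : V.Mn m (g * V.t).val := by
    refine ⟨fun a b => ?_, i, 0, ?_, ?_⟩
    · rcases (by omega : b = 0 ∨ b = 1) with rfl | rfl
      · rw [(mul_t g a).1]
        exact hm.1 a 0
      · rw [(mul_t g a).2]
        refine L_mono (by omega : m ≤ m + 1) (L_mul (hm.1 a 1) ?_)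
        intro _
        rw [V.v_w]
    · rw [(mul_t g i).1]
      exact h0
    · rw [(mul_t g i).1]
      exact hv
  have h2 := lev_eq hm' (Inv_t hD)
  omega

/-- the level goes down if it does not -/
theorem lev_down {m : ℤ} {g : G2 K} (hm : V.Mn m g.val) (h0 : ∀ i, V.L (m + 1) (g.val i 0)) :
    (V.lev (g * V.t) : ℤ) = V.lev g - 1 := by
  obtain ⟨D, hD⟩ := V.exists_inv g
  have h1 := lev_eq hm hD
  obtain ⟨hb, i, j, hne, hv⟩ := hm
  have hj : j = 1 := by
    by_contra hj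
    have : j = 0 := by omega
    subst this
    have := h0 i hne
    omega
  subst hj
  have hm' : V.Mn (m + 1) (g * V.t).val := by
    refine ⟨fun a b => ?_, i, 1, ?_, ?_⟩
    · rcases (by omega : b = 0 ∨ b = 1) with rfl | rfl
      · rw [(mul_t g a).1]
        exact h0 a
      · rw [(mul_t g a).2]
        refine L_mul (hb a 1) ?_
        intro _
        rw [V.v_w]
    · rw [(mul_t g i).2]
      exact mul_ne_zero hne V.w_ne
    · rw [(mul_t g i).2, V.map_mul _ _ hne V.w_ne, hv, V.v_w]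
  have h2 := lev_eq hm' (Inv_t hD)
  omega

theorem lev_adj (g : G2 K) :
    (V.lev (g * V.t) : ℤ) = V.lev g + 1 ∨ (V.lev (g * V.t) : ℤ) = V.lev g - 1 := by
  obtain ⟨m, hm⟩ := V.exists_Mn g
  by_cases h : ∃ i, g.val i 0 ≠ 0 ∧ V.v (g.val i 0) = m
  · obtain ⟨i, h0, hv⟩ := h
    exact Or.inl (lev_up hm h0 hv)
  · right
    apply lev_down hm
    intro i hi
    push Not at h
    have h1 := h i hi
    have h2 := hm.1 i 0 hi
    omega

/-- lower neighbours -/
theorem col_of_lt {m : ℤ} {g : G2 K} (hm : V.Mn m g.val) (h : V.lev (g * V.t) < V.lev g) (i : Fin 2) :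
    V.L (m + 1) (g.val i 0) := by
  intro hi
  by_contra hcon
  have h1 := hm.1 i 0 hi
  have h2 := lev_up hm hi (by omega)
  omega

theorem step_one {m : ℤ} {g : G2 K} (hm : V.EB m g.val) {i : Fin 2} (hi : g.val i 1 ≠ 0)
    (hv : V.v (g.val i 1) = m) (h0 : V.lev g ≠ 0) :
    ∃ k ∈ V.S0, V.lev (g * k * V.t) < V.lev g := by
  obtain ⟨s, hs⟩ : ∃ s, s = -((g.val i 1)⁻¹ * g.val i 0) := ⟨_, rfl⟩
  have hsL : V.L 0 s := by
    rw [hs]
    apply L_neg
    have := L_mul (L_inv (V := V) hi) (hm i 0)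
    rw [hv] at this
    exact L_mono (by omega) this
  have hk := low_mem hsL
  refine ⟨low s, hk, ?_⟩
  have hg' : ∀ l, (g * low s).val l 0 = g.val l 0 + g.val l 1 * s ∧ (g * low s).val l 1 = g.val l 1 := by
    intro l
    rw [Units.val_mul, mul_entry, mul_entry]
    simp [low]
  have hm' : V.Mn m (g * low s).val := Mn_mul ⟨hm, i, 1, hi, hv⟩ hk
  have hz : (g * low s).val i 0 = 0 := by
    rw [(hg' i).1, hs, mul_neg, ← mul_assoc, mul_inv_cancel₀ hi, one_mul, add_neg_cancel]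
  obtain ⟨D, hD⟩ := V.exists_inv (g * low s)
  have hlev : (V.lev (g * low s) : ℤ) = D - 2 * m := lev_eq hm' hD
  have hl := lev_mul (V := V) (S0_le hk) g
  have hone : ((g * low s).val * ((g * low s)⁻¹).val) i i = 1 := by
    rw [Units.mul_inv, Matrix.one_apply_eq]
  rw [mul_entry, hz, zero_mul, zero_add, (hg' i).2] at hone
  have hne : ((g * low s)⁻¹).val 1 i ≠ 0 := by
    intro h
    rw [h, mul_zero] at hone
    exact zero_ne_one hone
  have hvi : V.v (((g * low s)⁻¹).val 1 i) = -m := by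
    have := V.map_mul _ _ hi hne
    rw [hone, V.v_one, hv] at this
    omega
  have hpair := hD 1 i
  have e : (Fin.rev 1 : Fin 2) = 0 := rfl
  rw [e] at hpair
  have hx : V.v ((g * low s).val (Fin.rev i) 0) = D - m := by
    rcases hpair with ⟨h1, -⟩ | ⟨-, -, h3⟩
    · exact absurd h1 hne
    · omega
  have hdown := lev_down hm' (by
    intro l
    by_cases hl' : l = i
    · rw [hl', hz]
      exact L_zero _
    · have : l = Fin.rev i := by
        revert hl'
        fin_cases l <;> fin_cases i <;> simp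
      rw [this]
      intro _
      rw [hx]
      omega)
  omega

/-- every vertex but the base has a lower neighbour -/
theorem step {g : G2 K} (h0 : V.lev g ≠ 0) : ∃ k ∈ V.S0, V.lev (g * k * V.t) < V.lev g := by
  obtain ⟨m, hb, i, j, hne, hv⟩ := V.exists_Mn g
  rcases (by omega : j = 1 ∨ j = 0) with rfl | rfl
  · exact step_one hb hne hv h0
  · have hf : ∀ l, (g * fl K).val l 1 = g.val l 0 ∧ (g * fl K).val l 0 = g.val l 1 := by
      intro l
      rw [Units.val_mul, mul_entry, mul_entry]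
      simp [fl]
    have hl := lev_mul (V := V) (S0_le fl_mem) g
    obtain ⟨k, hk, h1⟩ := step_one (V := V) (g := g * fl K) (m := m) (i := i) (by
      intro a b
      rcases (by omega : b = 0 ∨ b = 1) with rfl | rfl
      · rw [(hf a).2]
        exact hb a 1
      · rw [(hf a).1]
        exact hb a 0) (by rw [(hf i).1]; exact hne) (by rw [(hf i).1]; exact hv) (by rw [hl]; exact h0)
    refine ⟨fl K * k, mul_mem fl_mem hk, ?_⟩
    rw [← mul_assoc, ← hl]
    exact h1

theorem uniq_aux {g h : G2 K} (hh : h ∈ V.S0) (h1 : V.lev (g * V.t) < V.lev g)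
    (h2 : V.lev (g * h * V.t) < V.lev (g * h)) : V.L 1 (h.val 1 0) := by
  obtain ⟨m, hm⟩ := V.exists_Mn g
  have a1 := col_of_lt hm h1
  have a2 := col_of_lt (Mn_mul hm hh) h2
  obtain ⟨hb, i, j, hne, hv⟩ := hm
  have hj : j = 1 := by
    by_contra hj
    have : j = 0 := by omega
    subst this
    have := a1 i hne
    omega
  subst hj
  have a3 := a2 i
  rw [Units.val_mul, mul_entry] at a3
  have a4 : V.L (m + 1) (g.val i 0 * h.val 0 0) := by
    have := L_mul (a1 i) (hh.1 0 0)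
    exact L_mono (by omega) this
  have a5 := L_sub a3 a4
  rw [add_sub_cancel_left] at a5
  exact L_of_mul hne hv a5

/-- a vertex has at most one lower neighbour -/
theorem uniq {g k k' : G2 K} (hk : k ∈ V.S0) (hk' : k' ∈ V.S0) (h1 : V.lev (g * k * V.t) < V.lev g)
    (h2 : V.lev (g * k' * V.t) < V.lev g) : (g * k * V.t)⁻¹ * (g * k' * V.t) ∈ V.S := by
  have l1 := lev_mul (V := V) (S0_le hk) g
  have l2 := lev_mul (V := V) (S0_le hk') g
  obtain ⟨h, hh⟩ : ∃ h, h = k⁻¹ * k' := ⟨_, rfl⟩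
  have hhS : h ∈ V.S0 := by
    rw [hh]
    exact mul_mem (inv_mem hk) hk'
  have e1 : g * k * h = g * k' := by
    rw [hh]
    group
  have e2 : g * k' * h⁻¹ = g * k := by
    rw [hh]
    group
  have b1 : V.L 1 (h.val 1 0) := uniq_aux hhS (by rw [l1]; exact h1) (by rw [e1, l2]; exact h2)
  have b2 : V.L 1 ((h⁻¹).val 1 0) := uniq_aux (inv_mem hhS) (by rw [l2]; exact h2)
    (by rw [e2, l1]; exact h1)
  have e3 : (g * k * V.t)⁻¹ * (g * k' * V.t) = V.t⁻¹ * h * V.t := by
    rw [hh]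
    group
  have key : ∀ x : G2 K, V.EB 0 x.val → V.L 1 (x.val 1 0) → V.EB 0 (V.t⁻¹ * x * V.t).val := by
    intro x hx h10 i j
    have hw1 : V.L 1 V.w := fun _ => by rw [V.v_w]
    have hwi : V.L (-1) V.w⁻¹ := by
      have := L_inv (V := V) V.w_ne
      rwa [V.v_w] at this
    have e4 : ∀ j, (V.t⁻¹ * x).val 0 j = x.val 0 j ∧ (V.t⁻¹ * x).val 1 j = V.w⁻¹ * x.val 1 j := by
      intro j
      rw [Units.val_mul, mul_entry, mul_entry, t_inv]
      simp
    rcases (by omega : j = 0 ∨ j = 1) with rfl | rfl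
    · rw [(mul_t _ i).1]
      rcases (by omega : i = 0 ∨ i = 1) with rfl | rfl
      · rw [(e4 0).1]
        exact hx 0 0
      · rw [(e4 0).2]
        exact L_mono (by omega) (L_mul hwi h10)
    · rw [(mul_t _ i).2]
      rcases (by omega : i = 0 ∨ i = 1) with rfl | rfl
      · rw [(e4 1).1]
        exact L_mono (by omega) (L_mul (hx 0 1) hw1)
      · rw [(e4 1).2]
        exact L_mono (by omega) (L_mul (L_mul hwi (hx 1 1)) hw1)
  rw [e3]
  apply S0_le
  refine ⟨key h hhS.1 b1, ?_⟩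
  have e5 : (V.t⁻¹ * h * V.t)⁻¹ = V.t⁻¹ * h⁻¹ * V.t := by group
  rw [e5]
  exact key h⁻¹ hhS.2 b2

end DV

end Pool.Agent.U919.NV
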