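import Pool.Agent.U919.NV.Ring

/-!
# Degree functions on Ore domains and valuations of the division rings of fractions
-/

set_option autoImplicit false

namespace Pool.Agent.U919.NV

open Pool.Agent.Y110.FJ (ClosedE)
open Pool.Agent.U919.GE (G2 mp mp_apply)
open OreLocalization nonZeroDivisors

/-- `δ` is a degree function: the degree of a product of nonzero elements is the sum of their degrees,
and the degree of a nonzero sum is at most the maximum -/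
structure IsDeg {R : Type} [Ring R] (δ : R → ℕ) : Prop where
  mul : ∀ a b, a ≠ 0 → b ≠ 0 → δ (a * b) = δ a + δ b
  add : ∀ a b, a ≠ 0 → b ≠ 0 → a + b ≠ 0 → δ (a + b) ≤ max (δ a) (δ b)

/-- the left Ore condition -/
def LeftOre (R : Type) [Ring R] : Prop := ∀ a b : R, b ≠ 0 → ∃ c d : R, d ≠ 0 ∧ d * a = c * b

section ore

variable {R : Type} [Ring R] [Nontrivial R] [NoZeroDivisors R] [OreSet R⁰] {δ : R → ℕ}

theorem s_ne (s : R⁰) : (s : R) ≠ 0 := nonZeroDivisors.ne_zero s.2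

theorem frac_rep (x : R[R⁰⁻¹]) : ∃ (r : R) (s : R⁰), x = r /ₒ s := by
  induction x with
  | _ r s => exact ⟨r, s, rfl⟩

theorem frac_zero (s : R⁰) : (0 : R) /ₒ s = 0 := by
  exact OreLocalization.zero_oreDiv s

theorem frac_ne {r : R} (hr : r ≠ 0) (s : R⁰) : r /ₒ s ≠ 0 := by
  intro h
  rw [← frac_zero s, oreDiv_eq_iff] at h
  obtain ⟨u, v, h1, h2⟩ := h
  have hu := s_ne u
  have hs := s_ne s
  have hv : v = 0 := by
    rw [smul_zero] at h1
    have h3 : v * r = 0 := h1.symm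
    exact (mul_eq_zero.1 h3).resolve_right hr
  rw [hv, zero_mul] at h2
  exact mul_ne_zero hu hs h2

theorem num_ne {r : R} {s : R⁰} (h : r /ₒ s ≠ 0) : r ≠ 0 := by
  rintro rfl
  exact h (frac_zero s)

variable (δ) in
/-- minus the degree on the division ring of fractions -/
noncomputable def v0 (x : R[R⁰⁻¹]) : ℤ :=
  (δ ((frac_rep x).choose_spec.choose : R) : ℤ) - δ (frac_rep x).choose

theorem v0_div (h : IsDeg δ) {r : R} (hr : r ≠ 0) (s : R⁰) : v0 δ (r /ₒ s) = (δ (s : R) : ℤ) - δ r := by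
  obtain ⟨x, hx⟩ : ∃ x : R[R⁰⁻¹], x = r /ₒ s := ⟨_, rfl⟩
  rw [← hx]
  obtain ⟨r', hr'⟩ : ∃ r', r' = (frac_rep x).choose := ⟨_, rfl⟩
  obtain ⟨s', hs'⟩ : ∃ s', s' = (frac_rep x).choose_spec.choose := ⟨_, rfl⟩
  have h1 : x = r' /ₒ s' := by
    rw [hr', hs']
    exact (frac_rep x).choose_spec.choose_spec
  have h2 : v0 δ x = (δ (s' : R) : ℤ) - δ r' := by
    rw [hr', hs']
    rfl
  have hr0 : r' ≠ 0 := num_ne (s := s') (by
    rw [← h1, hx]
    exact frac_ne hr s)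
  rw [hx, oreDiv_eq_iff] at h1
  obtain ⟨u, v, e1, e2⟩ := h1
  have e1' : (u : R) * r' = v * r := e1
  have hu := s_ne u
  have hs := s_ne s
  have hs0 := s_ne s'
  have hv : v ≠ 0 := by
    rintro rfl
    rw [zero_mul] at e2
    exact mul_ne_zero hu hs0 e2
  have f1 := congrArg δ e1'
  have f2 := congrArg δ e2
  rw [h.mul _ _ hu hr0, h.mul _ _ hv hr] at f1
  rw [h.mul _ _ hu hs0, h.mul _ _ hv hs] at f2
  rw [h2]
  omega

theorem v0_mul (h : IsDeg δ) {x y : R[R⁰⁻¹]} (hx : x ≠ 0) (hy : y ≠ 0) :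
    v0 δ (x * y) = v0 δ x + v0 δ y := by
  obtain ⟨r₁, s₁, rfl⟩ := frac_rep x
  obtain ⟨r₂, s₂, rfl⟩ := frac_rep y
  have h1 := num_ne hx
  have h2 := num_ne hy
  obtain ⟨r', s', huv⟩ : ∃ (r' : R) (s' : R⁰), (s' : R) * r₁ = r' * s₂ :=
    ⟨oreNum r₁ s₂, oreDenom r₁ s₂, ore_eq r₁ s₂⟩
  have hs' := s_ne s'
  have hs₁ := s_ne s₁
  have hs₂ := s_ne s₂
  have hr' : r' ≠ 0 := by
    rintro rfl
    rw [zero_mul] at huv
    exact mul_ne_zero hs' h1 huv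
  rw [oreDiv_mul_char r₁ r₂ s₁ s₂ r' s' huv, v0_div h (mul_ne_zero hr' h2), v0_div h h1, v0_div h h2]
  have f := congrArg δ huv
  rw [h.mul _ _ hs' h1, h.mul _ _ hr' hs₂] at f
  rw [Submonoid.coe_mul, h.mul _ _ hs' hs₁, h.mul _ _ hr' h2]
  push_cast
  omega

theorem v0_add (h : IsDeg δ) {x y : R[R⁰⁻¹]} (hx : x ≠ 0) (hy : y ≠ 0) (hxy : x + y ≠ 0) :
    min (v0 δ x) (v0 δ y) ≤ v0 δ (x + y) := by
  obtain ⟨r₁, s₁, rfl⟩ := frac_rep x
  obtain ⟨r₂, s₂, rfl⟩ := frac_rep y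
  have h1 := num_ne hx
  have h2 := num_ne hy
  obtain ⟨rb, sb, hb⟩ : ∃ (rb : R) (sb : R⁰), (sb : R) * s₁ = rb * s₂ :=
    ⟨oreNum (s₁ : R) s₂, oreDenom (s₁ : R) s₂, ore_eq (s₁ : R) s₂⟩
  have hsb := s_ne sb
  have hs₁ := s_ne s₁
  have hs₂ := s_ne s₂
  have hrb : rb ≠ 0 := by
    rintro rfl
    rw [zero_mul] at hb
    exact mul_ne_zero hsb hs₁ hb
  have e := oreDiv_add_char (r := r₁) (r' := r₂) s₁ s₂ rb sb hb
  rw [e] at hxy ⊢
  have h3 := num_ne hxy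
  rw [v0_div h h3, v0_div h h1, v0_div h h2]
  have e1 : sb • r₁ + rb • r₂ = (sb : R) * r₁ + rb * r₂ := rfl
  rw [e1] at h3 ⊢
  have f := congrArg δ hb
  rw [h.mul _ _ hsb hs₁, h.mul _ _ hrb hs₂] at f
  have g := h.add _ _ (mul_ne_zero hsb h1) (mul_ne_zero hrb h2) h3
  rw [h.mul _ _ hsb h1, h.mul _ _ hrb h2] at g
  rw [Submonoid.coe_mul, h.mul _ _ hsb hs₁]
  push_cast
  rcases le_max_iff.1 g with g | g
  · exact min_le_iff.2 (Or.inl (by omega))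
  · exact min_le_iff.2 (Or.inr (by omega))

theorem δ_one (h : IsDeg δ) : δ 1 = 0 := by
  have := h.mul 1 1 one_ne_zero one_ne_zero
  rw [mul_one] at this
  omega

theorem num_inj : Function.Injective (numeratorRingHom : R →+* R[R⁰⁻¹]) := by
  rw [injective_iff_map_eq_zero]
  intro r hr
  by_contra hne
  exact frac_ne hne 1 hr

theorem v0_num (h : IsDeg δ) {r : R} (hr : r ≠ 0) :
    v0 δ ((numeratorRingHom : R →+* R[R⁰⁻¹]) r) = -(δ r : ℤ) := by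
  have h1 : (numeratorRingHom : R →+* R[R⁰⁻¹]) r = r /ₒ (1 : R⁰) := rfl
  rw [h1, v0_div h hr, Submonoid.coe_one, δ_one h]
  simp

theorem exists_e (h : IsDeg δ) (hnt : ∃ r : R, r ≠ 0 ∧ δ r ≠ 0) :
    ∃ (e : ℕ) (w : R[R⁰⁻¹]), 0 < e ∧ w ≠ 0 ∧ v0 δ w = e ∧
      ∀ x : R[R⁰⁻¹], x ≠ 0 → (e : ℤ) ∣ v0 δ x := by
  have hone : v0 δ (1 : R[R⁰⁻¹]) = 0 := by
    have := v0_mul h (one_ne_zero (α := R[R⁰⁻¹])) (one_ne_zero (α := R[R⁰⁻¹]))
    rw [mul_one] at this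
    omega
  let H : AddSubgroup ℤ :=
    { carrier := {n | ∃ x : R[R⁰⁻¹], x ≠ 0 ∧ v0 δ x = n}
      zero_mem' := ⟨1, one_ne_zero, hone⟩
      add_mem' := by
        rintro _ _ ⟨x, hx, rfl⟩ ⟨y, hy, rfl⟩
        exact ⟨x * y, mul_ne_zero hx hy, v0_mul h hx hy⟩
      neg_mem' := by
        rintro _ ⟨x, hx, rfl⟩
        refine ⟨x⁻¹, inv_ne_zero hx, ?_⟩
        have h1 := v0_mul h hx (inv_ne_zero hx)
        rw [mul_inv_cancel₀ hx] at h1
        omega }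
  obtain ⟨a, ha⟩ := Int.subgroup_cyclic H
  have hmem : ∀ n : ℤ, n ∈ H ↔ a ∣ n := by
    intro n
    rw [ha, ← AddSubgroup.zmultiples_eq_closure, Int.mem_zmultiples_iff]
  obtain ⟨r, hr, hδ⟩ := hnt
  have ha0 : a ≠ 0 := by
    rintro rfl
    have h1 : (v0 δ ((numeratorRingHom : R →+* R[R⁰⁻¹]) r)) ∈ H :=
      ⟨_, (map_ne_zero_iff _ num_inj).2 hr, rfl⟩
    rw [hmem, v0_num h hr, zero_dvd_iff] at h1
    omega
  have h2 : ((a.natAbs : ℕ) : ℤ) ∈ H := by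
    rw [hmem]
    exact Int.dvd_natCast.2 dvd_rfl
  obtain ⟨w, hw, hw'⟩ := h2
  refine ⟨a.natAbs, w, Int.natAbs_pos.2 ha0, hw, hw', fun x hx => ?_⟩
  have h3 : v0 δ x ∈ H := ⟨x, hx, rfl⟩
  rw [hmem] at h3
  exact Int.natAbs_dvd.2 h3

theorem exists_DV (h : IsDeg δ) (hnt : ∃ r : R, r ≠ 0 ∧ δ r ≠ 0) :
    ∃ (e : ℕ) (V : DV (R[R⁰⁻¹])), 0 < e ∧ ∀ r : R, r ≠ 0 →
      (e : ℤ) * V.v ((numeratorRingHom : R →+* R[R⁰⁻¹]) r) = - δ r := by
  obtain ⟨e, w, he, hw, hw', hd⟩ := exists_e h hnt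
  have he' : (0 : ℤ) < e := by exact_mod_cast he
  have key : ∀ x : R[R⁰⁻¹], x ≠ 0 → (e : ℤ) * (v0 δ x / e) = v0 δ x :=
    fun x hx => Int.mul_ediv_cancel' (hd x hx)
  refine ⟨e, ⟨fun x => v0 δ x / e, ?_, ?_, w, hw, ?_⟩, he, ?_⟩
  · intro a b ha hb
    have h3 := key _ (mul_ne_zero ha hb)
    have h4 : (e : ℤ) * (v0 δ (a * b) / e) = (e : ℤ) * (v0 δ a / e + v0 δ b / e) := by
      rw [h3, v0_mul h ha hb, mul_add, key a ha, key b hb]
    exact mul_left_cancel₀ he'.ne' h4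
  · intro a b ha hb hab
    have h1 := v0_add h ha hb hab
    rw [← key a ha, ← key b hb, ← key _ hab] at h1
    have h5 : ∀ x y z : ℤ, min ((e : ℤ) * x) (e * y) ≤ e * z → min x y ≤ z := by
      intro x y z hh
      rcases min_le_iff.1 hh with hh | hh
      · exact min_le_iff.2 (Or.inl (le_of_mul_le_mul_left hh he'))
      · exact min_le_iff.2 (Or.inr (le_of_mul_le_mul_left hh he'))
    exact h5 _ _ _ h1
  · show v0 δ w / e = 1
    rw [hw']
    exact Int.ediv_self he'.ne'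
  · intro r hr
    change (e : ℤ) * (v0 δ _ / e) = _
    rw [key _ ((map_ne_zero_iff _ num_inj).2 hr), v0_num h hr]

end ore

/-- **Groups of matrices of size two over an Ore domain with a degree function and a filtration.** -/
theorem main_ore {C : ∀ (G : Type) [Group G], Prop} (hC : ClosedE C)
    (hM : ∀ (G : Type) [Group G], derivedSeries G 2 = ⊥ → C G)
    {R : Type} [Ring R] [Nontrivial R] [NoZeroDivisors R] (hO : LeftOre R) {δ : R → ℕ} (hδ : IsDeg δ)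
    {F : ℕ → AddSubgroup R} (h : Filt F) {S : Type} [Ring S] (φ : R →+* S)
    (hφ : ∀ r, r ∈ F 1 ↔ φ r = 0) (hsep : ∀ n : ℕ, ∃ k, ∀ r ∈ F k, r ≠ 0 → n < δ r)
    (Γ : Subgroup (G2 R)) (hΓ : C (Γ.map (mp φ))) : C Γ := by
  by_cases hnt : ∃ r : R, r ≠ 0 ∧ δ r ≠ 0
  · have hOS : Nonempty (OreSet R⁰) := by
      rw [nonempty_oreSet_iff_of_noZeroDivisors]
      intro r s
      obtain ⟨c, d, hd, hcd⟩ := hO r s (nonZeroDivisors.ne_zero s.2)
      exact ⟨c, ⟨d, mem_nonZeroDivisors_of_ne_zero hd⟩, hcd⟩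
    obtain ⟨hOS⟩ := hOS
    obtain ⟨e, V, he, hV⟩ := exists_DV hδ hnt
    have he' : (0 : ℤ) < e := by exact_mod_cast he
    refine main_ring hC hM V (numeratorRingHom : R →+* R[R⁰⁻¹]) num_inj ?_ h φ hφ ?_ Γ hΓ
    · intro r hr
      have h1 := hV r hr
      by_contra hcon
      push Not at hcon
      have h2 : 0 < (e : ℤ) * V.v ((numeratorRingHom : R →+* R[R⁰⁻¹]) r) := mul_pos he' hcon
      omega
    · intro n
      obtain ⟨k, hk⟩ := hsep (n * e)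
      refine ⟨k, fun r hr h0 => ?_⟩
      have h1 := hV r h0
      have h2 := hk r hr h0
      by_contra hcon
      push Not at hcon
      have h3 : (e : ℤ) * (-(n : ℤ)) ≤ e * V.v ((numeratorRingHom : R →+* R[R⁰⁻¹]) r) :=
        mul_le_mul_of_nonneg_left hcon he'.le
      rw [h1] at h3
      have h4 : ((n * e : ℕ) : ℤ) < δ r := by exact_mod_cast h2
      push_cast at h4
      nlinarith
  · push Not at hnt
    obtain ⟨k, hk⟩ := hsep 0
    refine ring_end hC hM h φ hφ k (fun r hr => ?_) Γ hΓ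
    by_contra h0
    have := hk r hr h0
    have := hnt r h0
    omega

end Pool.Agent.U919.NV
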