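import Pool.Agent.U919.NV.Cls

/-!
# Groups of matrices of size two over a ring with a filtration, inside a division ring with a discrete
valuation
-/

set_option autoImplicit false

namespace Pool.Agent.U919.NV

open Pool.Agent.Y110.FJ (ClosedE)
open Pool.Agent.U919.GE (G2 mp mp_apply)

/-- a descending multiplicative filtration of a ring by additive subgroups, `F 0` is the ring -/
structure Filt {R : Type} [Ring R] (F : ℕ → AddSubgroup R) : Prop where
  top : ∀ r, r ∈ F 0
  anti : ∀ n, F (n + 1) ≤ F n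
  mul : ∀ m n x y, x ∈ F m → y ∈ F n → x * y ∈ F (m + n)

section filt

variable {R : Type} [Ring R] {F : ℕ → AddSubgroup R}

/-- the entries of the matrix are in `F n` -/
def InF (F : ℕ → AddSubgroup R) (n : ℕ) (M : Matrix (Fin 2) (Fin 2) R) : Prop := ∀ i j, M i j ∈ F n

theorem Filt.le (h : Filt F) {m n : ℕ} (hmn : m ≤ n) : F n ≤ F m := by
  induction n, hmn using Nat.le_induction with
  | base => exact le_rfl
  | succ n _ ih => exact (h.anti n).trans ih

theorem InF_mul (h : Filt F) {m n : ℕ} {A B : Matrix (Fin 2) (Fin 2) R} (hA : InF F m A)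
    (hB : InF F n B) : InF F (m + n) (A * B) := by
  intro i j
  rw [Matrix.mul_apply, Fin.sum_univ_two]
  exact add_mem (h.mul _ _ _ _ (hA _ _) (hB _ _)) (h.mul _ _ _ _ (hA _ _) (hB _ _))

theorem InF_zero (h : Filt F) (A : Matrix (Fin 2) (Fin 2) R) : InF F 0 A := fun _ _ => h.top _

theorem InF_add {n : ℕ} {A B : Matrix (Fin 2) (Fin 2) R} (hA : InF F n A) (hB : InF F n B) :
    InF F n (A + B) := fun i j => by
  rw [Matrix.add_apply]
  exact add_mem (hA i j) (hB i j)

theorem InF_sub {n : ℕ} {A B : Matrix (Fin 2) (Fin 2) R} (hA : InF F n A) (hB : InF F n B) :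
    InF F n (A - B) := fun i j => by
  rw [Matrix.sub_apply]
  exact sub_mem (hA i j) (hB i j)

/-- the congruence subgroup -/
def Cg (h : Filt F) (n : ℕ) : Subgroup (G2 R) where
  carrier := {g | InF F n (g.val - 1)}
  one_mem' := by
    intro i j
    rw [Units.val_one, sub_self]
    exact zero_mem _
  mul_mem' := by
    intro a b ha hb
    have e : (a * b).val - 1 = (a.val - 1) * b.val + (b.val - 1) := by
      rw [Units.val_mul]
      noncomm_ring
    show InF F n ((a * b).val - 1)
    rw [e]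
    exact InF_add (InF_mul h ha (InF_zero h b.val)) hb
  inv_mem' := by
    intro a ha
    have e : (a⁻¹).val - 1 = -((a⁻¹).val * (a.val - 1)) := by
      rw [mul_sub, Units.inv_mul, mul_one]
      noncomm_ring
    show InF F n ((a⁻¹).val - 1)
    rw [e]
    intro i j
    rw [Matrix.neg_apply]
    refine neg_mem ?_
    have := InF_mul h (InF_zero h (a⁻¹).val) ha i j
    rwa [zero_add] at this

theorem mem_Cg (h : Filt F) {n : ℕ} {g : G2 R} : g ∈ Cg h n ↔ InF F n (g.val - 1) := Iff.rfl

theorem Cg_normal (h : Filt F) (n : ℕ) : (Cg h n).Normal where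
  conj_mem g hg x := by
    have e : (x * g * x⁻¹).val - 1 = x.val * (g.val - 1) * (x⁻¹).val := by
      rw [Units.val_mul, Units.val_mul, mul_sub, sub_mul, mul_one, Units.mul_inv]
    rw [mem_Cg, e]
    have := InF_mul h (InF_mul h (InF_zero h x.val) hg) (InF_zero h (x⁻¹).val)
    rwa [zero_add, add_zero] at this

theorem Cg_anti (h : Filt F) {m n : ℕ} (hmn : m ≤ n) : Cg h n ≤ Cg h m :=
  fun _ hx i j => h.le hmn (hx i j)

theorem Cg_comm (h : Filt F) {n : ℕ} {x y : G2 R} (hx : x ∈ Cg h n) (hy : y ∈ Cg h n) :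
    x * y * x⁻¹ * y⁻¹ ∈ Cg h (n + n) := by
  have e : (x * y * x⁻¹ * y⁻¹).val - 1 =
      ((x.val - 1) * (y.val - 1) - (y.val - 1) * (x.val - 1)) * (x⁻¹ * y⁻¹).val := by
    have e1 : (x.val - 1) * (y.val - 1) - (y.val - 1) * (x.val - 1) = x.val * y.val - y.val * x.val := by
      noncomm_ring
    have e2 : (y * x).val * (x⁻¹ * y⁻¹).val = 1 := by
      rw [← Units.val_mul]
      have : y * x * (x⁻¹ * y⁻¹) = 1 := by group
      rw [this, Units.val_one]
    rw [e1, sub_mul, ← Units.val_mul, ← Units.val_mul y x, e2, ← Units.val_mul, mul_assoc (x * y)]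
  rw [mem_Cg, e]
  have := InF_mul h (InF_sub (InF_mul h hx hy) (InF_mul h hy hx)) (InF_zero h (x⁻¹ * y⁻¹).val)
  rwa [add_zero] at this

variable {C : ∀ (G : Type) [Group G], Prop}

/-- the quotient by the congruence subgroup of the kernel is in `C` if the image is -/
theorem quot_ker (hC : ClosedE C) (h : Filt F) {S : Type} [Ring S] (φ : R →+* S)
    (hφ : ∀ r, r ∈ F 1 ↔ φ r = 0) (Γ : Subgroup (G2 R)) (hΓ : C (Γ.map (mp φ)))
    (N : Subgroup Γ) [hN : N.Normal] (hNe : ∀ x : Γ, x ∈ N ↔ x.1 ∈ Cg h 1) : C (Γ ⧸ N) := by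
  have hker : ∀ g : G2 R, g ∈ Cg h 1 ↔ mp φ g = 1 := by
    intro g
    rw [mem_Cg]
    have e : ∀ i j, φ ((1 : Matrix (Fin 2) (Fin 2) R) i j) = (1 : Matrix (Fin 2) (Fin 2) S) i j := by
      intro i j
      rw [Matrix.one_apply, Matrix.one_apply]
      split_ifs <;> simp
    constructor
    · intro h1
      apply Units.ext
      ext i j
      have h2 := h1 i j
      rw [Matrix.sub_apply, hφ, map_sub, sub_eq_zero, e] at h2
      exact h2
    · intro h1 i j
      have h2 : (mp φ g).val i j = (1 : Matrix (Fin 2) (Fin 2) S) i j := by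
        rw [h1]
        rfl
      rw [Matrix.sub_apply, hφ, map_sub, sub_eq_zero, e]
      exact h2
  let ψ := (mp φ).subgroupMap Γ
  have hψ : ∀ x : Γ, ψ x = 1 ↔ x ∈ N := by
    intro x
    rw [hNe x, hker]
    constructor
    · intro h1
      exact congrArg Subtype.val h1
    · intro h1
      exact Subtype.ext h1
  refine hC.base.of_injective _ _ (QuotientGroup.lift N ψ (fun x hx => (hψ x).2 hx)) ?_ hΓ
  rw [injective_iff_map_eq_one]
  intro a ha
  obtain ⟨x, rfl⟩ := QuotientGroup.mk_surjective a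
  exact (QuotientGroup.eq_one_iff x).2 ((hψ x).1 ha)

/-- **Groups of matrices of size two over a ring with a filtration, embedded in a division ring with a
discrete valuation which is not positive on the ring.** -/
theorem main_ring (hC : ClosedE C) (hM : ∀ (G : Type) [Group G], derivedSeries G 2 = ⊥ → C G)
    {K : Type} [DivisionRing K] (V : DV K) (j : R →+* K) (hj : Function.Injective j)
    (hle : ∀ r, r ≠ 0 → V.v (j r) ≤ 0) (h : Filt F) {S : Type} [Ring S] (φ : R →+* S)
    (hφ : ∀ r, r ∈ F 1 ↔ φ r = 0) (hsep : ∀ n : ℕ, ∃ k, ∀ r ∈ F k, r ≠ 0 → V.v (j r) < -(n : ℤ))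
    (Γ : Subgroup (G2 R)) (hΓ : C (Γ.map (mp φ))) : C Γ := by
  let N : ℕ → Subgroup Γ := fun k => (Cg h (k + 1)).subgroupOf Γ
  have hN : ∀ k, (N k).Normal := by
    intro k
    have := Cg_normal h (k + 1)
    exact this.subgroupOf Γ
  refine main_val hC hM V ((mp j).comp Γ.subtype) 0 ?_ N ?_ ?_ ?_ ?_
  · intro x
    obtain ⟨m, -, a, b, hne, -⟩ := V.exists_Mn (mp j x.1)
    refine ⟨a, b, hne, ?_⟩
    show V.v (j (x.1.val a b)) ≤ 0
    apply hle
    intro h0
    apply hne
    rw [mp_apply, h0, map_zero]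
  · intro k x hx
    exact Cg_anti h (Nat.le_succ _) hx
  · intro k x hx y hy
    exact Cg_anti h (by omega) (Cg_comm h hx hy)
  · refine quot_ker hC h φ hφ Γ hΓ (N 0) (fun x => ?_)
    rfl
  · intro n
    obtain ⟨k, hk⟩ := hsep n
    refine ⟨k, fun x hx hb => ?_⟩
    have hx' : x.1 ∈ Cg h (k + 1) := hx
    apply Subtype.ext
    apply Units.ext
    ext a b
    change x.1.val a b = (1 : Matrix (Fin 2) (Fin 2) R) a b
    rw [← sub_eq_zero]
    by_contra hne
    have h1 : x.1.val a b - (1 : Matrix (Fin 2) (Fin 2) R) a b ∈ F k := Cg_anti h (Nat.le_succ _) hx' a b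
    have h2 := hk _ h1 hne
    have h3 : V.L (-(n : ℤ)) (j (x.1.val a b - (1 : Matrix (Fin 2) (Fin 2) R) a b)) := by
      rw [map_sub]
      apply DV.L_sub
      · exact hb a b
      · rw [Matrix.one_apply]
        split_ifs
        · rw [map_one]
          exact DV.L_mono (by omega) DV.L_one
        · rw [map_zero]
          exact DV.L_zero _
    have h4 := h3 ((map_ne_zero_iff j hj).2 hne)
    omega

/-- if the filtration is finite, nothing else is needed -/
theorem ring_end (hC : ClosedE C) (hM : ∀ (G : Type) [Group G], derivedSeries G 2 = ⊥ → C G)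
    (h : Filt F) {S : Type} [Ring S] (φ : R →+* S) (hφ : ∀ r, r ∈ F 1 ↔ φ r = 0) (k : ℕ)
    (hk : ∀ r ∈ F k, r = 0) (Γ : Subgroup (G2 R)) (hΓ : C (Γ.map (mp φ))) : C Γ := by
  let N : ℕ → Subgroup Γ := fun k => (Cg h (k + 1)).subgroupOf Γ
  have hN : ∀ k, (N k).Normal := by
    intro k
    have := Cg_normal h (k + 1)
    exact this.subgroupOf Γ
  refine chain_end hC hM N ?_ ?_ ?_ k ?_
  · intro k x hx
    exact Cg_anti h (Nat.le_succ _) hx
  · intro k x hx y hy
    exact Cg_anti h (by omega) (Cg_comm h hx hy)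
  · refine quot_ker hC h φ hφ Γ hΓ (N 0) (fun x => ?_)
    rfl
  · intro x hx
    have hx' : x.1 ∈ Cg h (k + 1) := hx
    apply Subtype.ext
    apply Units.ext
    ext a b
    change x.1.val a b = (1 : Matrix (Fin 2) (Fin 2) R) a b
    rw [← sub_eq_zero]
    exact hk _ (Cg_anti h (Nat.le_succ _) hx' a b)

end filt

end Pool.Agent.U919.NV
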