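import Pool.Agent.U919.NV.Lev

/-!
# The tree of the group of the invertible matrices of size two over a division ring with a discrete
valuation
-/

set_option autoImplicit false

namespace Pool.Agent.U919.NV

open Pool.Agent.U919.GE (G2 up low dgl isTree_of_level)

namespace DV

variable {K : Type} [DivisionRing K] {V : DV K}

theorem sc_entry (n : ℤ) (g : G2 K) (i j : Fin 2) : (g * V.sc n).val i j = g.val i j * V.w ^ n := by
  have h : (V.sc n).val = !![V.w ^ n, 0; 0, V.w ^ n] := by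
    show !![((Units.mk0 V.w V.w_ne ^ n : Kˣ) : K), 0; 0, ((Units.mk0 V.w V.w_ne ^ n : Kˣ) : K)] = _
    rw [Units.val_zpow_eq_zpow_val, Units.val_mk0]
  rw [Units.val_mul, mul_entry, h]
  rcases (by omega : j = 0 ∨ j = 1) with rfl | rfl <;> simp

theorem entry_sc (n : ℤ) (g : G2 K) (i j : Fin 2) : (V.sc n * g).val i j = V.w ^ n * g.val i j := by
  have h : (V.sc n).val = !![V.w ^ n, 0; 0, V.w ^ n] := by
    show !![((Units.mk0 V.w V.w_ne ^ n : Kˣ) : K), 0; 0, ((Units.mk0 V.w V.w_ne ^ n : Kˣ) : K)] = _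
    rw [Units.val_zpow_eq_zpow_val, Units.val_mk0]
  rw [Units.val_mul, mul_entry, h]
  rcases (by omega : i = 0 ∨ i = 1) with rfl | rfl <;> simp

theorem v_zpow (n : ℤ) : V.v (V.w ^ n) = n := by
  have h1 : ∀ k : ℕ, V.v (V.w ^ k) = k := by
    intro k
    induction k with
    | zero => rw [pow_zero, V.v_one]; rfl
    | succ k ih =>
      rw [pow_succ, V.map_mul _ _ (pow_ne_zero k V.w_ne) V.w_ne, ih, V.v_w]
      push_cast
      ring
  obtain ⟨k, rfl | rfl⟩ := n.eq_nat_or_neg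
  · rw [zpow_natCast, h1]
  · rw [zpow_neg, zpow_natCast, V.v_inv (pow_ne_zero k V.w_ne), h1]

theorem sc_inv (n : ℤ) : (V.sc n)⁻¹ = V.sc (-n) := by
  rw [inv_eq_iff_mul_eq_one]
  apply Units.ext
  ext i j
  rw [sc_entry]
  have h : (V.sc n).val = !![V.w ^ n, 0; 0, V.w ^ n] := by
    show !![((Units.mk0 V.w V.w_ne ^ n : Kˣ) : K), 0; 0, ((Units.mk0 V.w V.w_ne ^ n : Kˣ) : K)] = _
    rw [Units.val_zpow_eq_zpow_val, Units.val_mk0]
  rw [h]
  have hw := zpow_ne_zero n V.w_ne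
  fin_cases i <;> fin_cases j <;> simp [hw]

theorem EB_sc {m n : ℤ} {g : G2 K} (h : V.EB m g.val) : V.EB (m + n) (g * V.sc n).val := by
  intro i j
  rw [sc_entry]
  refine L_mul (h i j) ?_
  intro _
  rw [v_zpow]

theorem EB_sc' {m n : ℤ} {g : G2 K} (h : V.EB m g.val) : V.EB (n + m) (V.sc n * g).val := by
  intro i j
  rw [entry_sc]
  refine L_mul ?_ (h i j)
  intro _
  rw [v_zpow]

/-- an element of the stabilizer of the base vertex is a scalar times an element over the valuation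
ring -/
theorem S_dec {s : G2 K} (h : s ∈ V.S) : ∃ (n : ℤ) (k : G2 K), k ∈ V.S0 ∧ s = k * V.sc n := by
  obtain ⟨m, h1, h2⟩ := h
  refine ⟨m, s * V.sc (-m), ⟨EB_mono (by omega) (EB_sc (n := -m) h1), ?_⟩, ?_⟩
  · rw [mul_inv_rev, sc_inv, neg_neg]
    exact EB_mono (by omega) (EB_sc' (n := m) h2)
  · rw [mul_assoc, ← sc_inv, inv_mul_cancel, mul_one]

theorem sc_mem (n : ℤ) : V.sc n ∈ V.S := by
  refine ⟨n, ?_, ?_⟩
  · have := EB_sc (V := V) (n := n) (g := 1) EB_one
    rw [one_mul] at this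
    exact EB_mono (by omega) this
  · have := EB_sc (V := V) (n := -n) (g := 1) EB_one
    rw [one_mul, ← sc_inv] at this
    exact EB_mono (by omega) this

theorem sc_t (n : ℤ) : V.sc n * V.t = V.t * V.sc n := by
  apply Units.ext
  ext i j
  rw [sc_entry, entry_sc]
  have h := V.t_val
  rw [h]
  fin_cases i <;> fin_cases j
  · simp
  · simp
  · simp
  · show V.w ^ n * V.w = V.w * V.w ^ n
    exact ((Commute.refl V.w).zpow_left₀ n).eq

theorem t_fl_t : V.t * fl K * V.t = V.sc 1 * fl K := by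
  apply Units.ext
  ext i j
  rw [entry_sc]
  rcases (by omega : j = 0 ∨ j = 1) with rfl | rfl
  · rw [(mul_t _ i).1, Units.val_mul, mul_entry, t_val]
    fin_cases i <;> simp [fl]
  · rw [(mul_t _ i).2, Units.val_mul, mul_entry, t_val]
    fin_cases i <;> simp [fl]

variable (V)

/-- the vertices -/
abbrev Vt : Type := G2 K ⧸ V.S

/-- the tree -/
def tr : SimpleGraph V.Vt where
  Adj u w := ∃ g : G2 K, u = QuotientGroup.mk g ∧ w = QuotientGroup.mk (g * V.t)
  symm := ⟨by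
    rintro u w ⟨g, rfl, rfl⟩
    refine ⟨g * V.t * fl K, ?_, ?_⟩
    · rw [QuotientGroup.eq]
      have e : (g * V.t)⁻¹ * (g * V.t * fl K) = fl K := by group
      rw [e]
      exact S0_le fl_mem
    · rw [QuotientGroup.eq]
      have e : g⁻¹ * (g * V.t * fl K * V.t) = V.t * fl K * V.t := by group
      rw [e, t_fl_t]
      exact mul_mem (sc_mem 1) (S0_le fl_mem)⟩
  loopless := ⟨by
    rintro u ⟨g, rfl, h⟩
    rw [QuotientGroup.eq] at h
    have h1 := lev_mul h g
    rw [mul_inv_cancel_left] at h1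
    have := lev_adj (V := V) g
    omega⟩

theorem tr_act (g : G2 K) (u w : V.Vt) (h : V.tr.Adj u w) : V.tr.Adj (g • u) (g • w) := by
  obtain ⟨x, rfl, rfl⟩ := h
  exact ⟨g * x, rfl, by rw [mul_assoc]; rfl⟩

/-- the level of a vertex -/
noncomputable def lv (u : V.Vt) : ℕ := V.lev u.out

theorem lv_mk (g : G2 K) : V.lv (QuotientGroup.mk g) = V.lev g := by
  have h1 : g⁻¹ * ((QuotientGroup.mk g : V.Vt).out) ∈ V.S := by
    rw [← QuotientGroup.eq]
    exact (Quotient.out_eq' _).symm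
  have h2 := lev_mul ((V.mem_S).1 h1) g
  rw [mul_inv_cancel_left] at h2
  exact h2

theorem adj_mk {g : G2 K} {w : V.Vt} (h : V.tr.Adj (QuotientGroup.mk g) w) :
    ∃ k ∈ V.S0, w = QuotientGroup.mk (g * k * V.t) := by
  obtain ⟨x, h1, rfl⟩ := h
  rw [QuotientGroup.eq] at h1
  obtain ⟨n, k, hk, h2⟩ := S_dec h1
  refine ⟨k, hk, ?_⟩
  rw [eq_comm, QuotientGroup.eq]
  have e : (g * k * V.t)⁻¹ * (x * V.t) = V.sc n := by
    have h3 : x = g * k * V.sc n := by
      rw [mul_assoc, ← h2]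
      group
    rw [h3, mul_assoc (g * k), sc_t]
    group
  rw [e]
  exact sc_mem n

theorem isTree : V.tr.IsTree := by
  refine isTree_of_level _ V.lv (QuotientGroup.mk 1) ?_ ?_ ?_
  · rintro u w ⟨g, rfl, rfl⟩
    rw [lv_mk, lv_mk]
    have := lev_adj (V := V) g
    omega
  · intro u hu
    obtain ⟨g, rfl⟩ := QuotientGroup.mk_surjective u
    have h0 : V.lev g ≠ 0 := by
      intro h0
      apply hu
      rw [QuotientGroup.eq, mul_one]
      apply inv_mem
      rw [mem_S]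
      have := lev_spec (V := V) g
      rw [h0] at this
      exact this
    obtain ⟨k, hk, hlt⟩ := step h0
    refine ⟨QuotientGroup.mk (g * k * V.t), ⟨g * k, ?_, rfl⟩, ?_⟩
    · rw [QuotientGroup.eq, inv_mul_cancel_left]
      exact S0_le hk
    · rw [lv_mk, lv_mk]
      exact hlt
  · intro u w w' hw hw' hlt hlt'
    obtain ⟨g, rfl⟩ := QuotientGroup.mk_surjective u
    obtain ⟨k, hk, rfl⟩ := V.adj_mk hw
    obtain ⟨k', hk', rfl⟩ := V.adj_mk hw'
    rw [lv_mk, lv_mk] at hlt hlt'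
    rw [QuotientGroup.eq]
    exact uniq hk hk' hlt hlt'

variable {V}

/-- the element `x` and its powers are not small -/
def NS (V : DV K) (c : ℤ) (x : G2 K) : Prop := ∃ i j, x.val i j ≠ 0 ∧ V.v (x.val i j) ≤ c

/-- if an element of a group of matrices which are not small fixes a vertex, it has bounded entries -/
theorem stab (c : ℤ) (u : V.Vt) : ∃ N : ℕ, ∀ x : G2 K, (∀ k : ℤ, V.NS c (x ^ k)) → x • u = u →
    V.EB (-(N : ℤ)) x.val := by
  obtain ⟨g, rfl⟩ := QuotientGroup.mk_surjective u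
  obtain ⟨a, ha, -⟩ := V.exists_Mn g
  obtain ⟨b, hb, -⟩ := V.exists_Mn g⁻¹
  refine ⟨(-a - b).toNat, fun x hx hu => ?_⟩
  have h3 : g⁻¹ * x * g ∈ V.S := by
    have h4 : (QuotientGroup.mk (x * g) : V.Vt) = QuotientGroup.mk g := hu
    rw [QuotientGroup.eq] at h4
    have h5 := inv_mem h4
    have e : ((x * g)⁻¹ * g)⁻¹ = g⁻¹ * x * g := by group
    rwa [e] at h5
  obtain ⟨m, h4, h5⟩ := (V.mem_S).1 h3
  have pw : ∀ (s : G2 K) (n : ℤ) (y : G2 K), V.EB n s.val → y = g * s * g⁻¹ → ∀ k : ℕ,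
      V.EB (a + k * n + b) (y ^ k).val := by
    intro s n y hs hy k
    have e : y ^ k = g * s ^ k * g⁻¹ := by
      rw [hy]
      exact conj_pow
    rw [e]
    refine EB_mul (EB_mul ha ?_) hb
    rw [Units.val_pow_eq_pow_val]
    exact EB_pow hs k
  have hxe : x = g * (g⁻¹ * x * g) * g⁻¹ := by group
  have hxi : x⁻¹ = g * (g⁻¹ * x * g)⁻¹ * g⁻¹ := by group
  have small : ∀ (n : ℤ) (y : G2 K), (∀ k : ℕ, V.EB (a + k * n + b) (y ^ k).val) →
      (∀ k : ℕ, V.NS c (y ^ k)) → n ≤ 0 := by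
    intro n y h1 h2
    by_contra hn
    push Not at hn
    obtain ⟨k, hk⟩ : ∃ k : ℕ, c - a - b < k := ⟨(c - a - b + 1).toNat, by omega⟩
    obtain ⟨i, j, hne, hle⟩ := h2 k
    have h3 := h1 k i j hne
    have h6 : (k : ℤ) * 1 ≤ k * n := mul_le_mul_of_nonneg_left (by omega) (by omega)
    omega
  have hm1 : m ≤ 0 := small m x (pw _ m x h4 hxe) (fun k => by
    have := hx k
    rwa [zpow_natCast] at this)
  have hm2 : -m - 0 ≤ 0 := small (-m - 0) x⁻¹ (pw _ (-m - 0) x⁻¹ h5 hxi) (fun k => by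
    have := hx (-k)
    rwa [zpow_neg, zpow_natCast, ← inv_pow] at this)
  have hm : m = 0 := by omega
  subst hm
  have h6 := pw _ 0 x h4 hxe 1
  rw [pow_one] at h6
  exact EB_mono (by omega) h6

end DV

end Pool.Agent.U919.NV
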