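import Pool.Agent.U919.GE.Mat

/-!
# Discrete valuations on division rings and invertible matrices of size two
-/

set_option autoImplicit false

namespace Pool.Agent.U919.NV

open Pool.Agent.U919.GE (G2 up low dgl)

/-- a normalized discrete valuation on a division ring, commutative or not (the value at `0` is
irrelevant) -/
structure DV (K : Type) [DivisionRing K] where
  /-- the valuation -/
  v : K → ℤ
  map_mul : ∀ a b, a ≠ 0 → b ≠ 0 → v (a * b) = v a + v b
  map_add : ∀ a b, a ≠ 0 → b ≠ 0 → a + b ≠ 0 → min (v a) (v b) ≤ v (a + b)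
  /-- a uniformizer -/
  w : K
  w_ne : w ≠ 0
  v_w : v w = 1

namespace DV

variable {K : Type} [DivisionRing K] (V : DV K)

theorem v_one : V.v 1 = 0 := by
  have := V.map_mul 1 1 one_ne_zero one_ne_zero
  rw [mul_one] at this
  omega

theorem v_neg_one : V.v (-1) = 0 := by
  have := V.map_mul (-1) (-1) (by simp) (by simp)
  rw [neg_one_mul, neg_neg, V.v_one] at this
  omega

theorem v_neg (a : K) : V.v (-a) = V.v a := by
  by_cases h : a = 0
  · rw [h, neg_zero]
  · have := V.map_mul (-1) a (by simp) h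
    rw [neg_one_mul, v_neg_one, zero_add] at this
    exact this

theorem v_inv {a : K} (h : a ≠ 0) : V.v a⁻¹ = - V.v a := by
  have := V.map_mul a a⁻¹ h (inv_ne_zero h)
  rw [mul_inv_cancel₀ h, V.v_one] at this
  omega

/-- the valuation of `x` is at least `n`, or `x = 0` -/
def L (n : ℤ) (x : K) : Prop := x ≠ 0 → n ≤ V.v x

variable {V}

theorem L_zero (n : ℤ) : V.L n 0 := fun h => absurd rfl h

theorem L_add {n : ℤ} {x y : K} (hx : V.L n x) (hy : V.L n y) : V.L n (x + y) := by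
  intro h
  by_cases h1 : x = 0
  · rw [h1, zero_add] at h ⊢
    exact hy h
  by_cases h2 : y = 0
  · rw [h2, add_zero] at h ⊢
    exact hx h
  exact (le_min (hx h1) (hy h2)).trans (V.map_add x y h1 h2 h)

theorem L_neg {n : ℤ} {x : K} (hx : V.L n x) : V.L n (-x) := by
  intro h
  rw [V.v_neg]
  exact hx (by simpa using h)

theorem L_sub {n : ℤ} {x y : K} (hx : V.L n x) (hy : V.L n y) : V.L n (x - y) := by
  rw [sub_eq_add_neg]
  exact L_add hx (L_neg hy)

theorem L_mul {m n : ℤ} {x y : K} (hx : V.L m x) (hy : V.L n y) : V.L (m + n) (x * y) := by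
  intro h
  have h1 : x ≠ 0 := left_ne_zero_of_mul h
  have h2 : y ≠ 0 := right_ne_zero_of_mul h
  rw [V.map_mul x y h1 h2]
  exact add_le_add (hx h1) (hy h2)

theorem L_mono {m n : ℤ} (h : m ≤ n) {x : K} (hx : V.L n x) : V.L m x := fun h0 => h.trans (hx h0)

theorem L_self (x : K) : V.L (V.v x) x := fun _ => le_rfl

theorem L_inv {x : K} (hx : x ≠ 0) : V.L (-V.v x) x⁻¹ := fun _ => by rw [V.v_inv hx]

theorem L_one : V.L 0 (1 : K) := fun _ => by rw [V.v_one]

theorem L_of_mul {m n : ℤ} {x y : K} (hx : x ≠ 0) (hv : V.v x = m) (h : V.L (m + n) (x * y)) :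
    V.L n y := by
  intro hy
  have h1 := h (mul_ne_zero hx hy)
  rw [V.map_mul x y hx hy, hv] at h1
  omega

theorem v_pair {a b c d : K} (h : a * b = -(c * d)) (ha : a ≠ 0) (hb : b ≠ 0) (hc : c ≠ 0)
    (hd : d ≠ 0) : V.v a + V.v b = V.v c + V.v d := by
  rw [← V.map_mul a b ha hb, ← V.map_mul c d hc hd, h, V.v_neg]

variable (V)

/-- `x` and `y` are both zero, or both nonzero and `v x = v y - D` -/
def Rl (D : ℤ) (x y : K) : Prop := (x = 0 ∧ y = 0) ∨ (x ≠ 0 ∧ y ≠ 0 ∧ V.v x = V.v y - D)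

variable {V}

theorem rl_of {D : ℤ} {a b c d : K} (h : a * b = -(c * d)) (ha : a ≠ 0) (hd : d ≠ 0)
    (hD : V.v d = V.v a - D) : V.Rl D b c := by
  by_cases hb : b = 0
  · left
    refine ⟨hb, ?_⟩
    rw [hb, mul_zero, zero_eq_neg] at h
    exact (mul_eq_zero.1 h).resolve_right hd
  · by_cases hc : c = 0
    · rw [hc, zero_mul, neg_zero] at h
      exact absurd h (mul_ne_zero ha hb)
    · right
      refine ⟨hb, hc, ?_⟩
      have := V.v_pair h ha hb hc hd
      omega

theorem rl_of' {D : ℤ} {a b c d : K} (h : b * a = -(d * c)) (ha : a ≠ 0) (hd : d ≠ 0)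
    (hD : V.v d = V.v a - D) : V.Rl D b c := by
  by_cases hb : b = 0
  · left
    refine ⟨hb, ?_⟩
    rw [hb, zero_mul, zero_eq_neg] at h
    exact (mul_eq_zero.1 h).resolve_left hd
  · by_cases hc : c = 0
    · rw [hc, mul_zero, neg_zero] at h
      exact absurd h (mul_ne_zero hb ha)
    · right
      refine ⟨hb, hc, ?_⟩
      have := V.v_pair h hb ha hd hc
      omega

/-- the valuations of the entries of the inverse -/
theorem inv_aux {a b c d p q r s : K} (e1 : a * p + b * r = 1) (e2 : a * q + b * s = 0)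
    (e3 : c * p + d * r = 0) (e4 : c * q + d * s = 1) (e5 : p * a + q * c = 1)
    (e6 : p * b + q * d = 0) (e7 : r * a + s * c = 0) :
    ∃ D : ℤ, V.Rl D p d ∧ V.Rl D q b ∧ V.Rl D r c ∧ V.Rl D s a := by
  have f2 := eq_neg_of_add_eq_zero_left e2
  have f3 := eq_neg_of_add_eq_zero_left e3
  have f6 := eq_neg_of_add_eq_zero_left e6
  have f7 := eq_neg_of_add_eq_zero_left e7
  by_cases ha : a = 0
  · subst ha
    rw [zero_mul, zero_add] at e1
    rw [mul_zero, zero_add] at e5
    rw [mul_zero, zero_add] at e7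
    have hb : b ≠ 0 := by
      rintro rfl
      rw [zero_mul] at e1
      exact zero_ne_one e1
    have hr : r ≠ 0 := by
      rintro rfl
      rw [mul_zero] at e1
      exact zero_ne_one e1
    have hq : q ≠ 0 := by
      rintro rfl
      rw [zero_mul] at e5
      exact zero_ne_one e5
    have hc : c ≠ 0 := by
      rintro rfl
      rw [mul_zero] at e5
      exact zero_ne_one e5
    have hs : s = 0 := (mul_eq_zero.1 e7).resolve_right hc
    have v1 := V.map_mul b r hb hr
    rw [e1, V.v_one] at v1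
    have v5 := V.map_mul q c hq hc
    rw [e5, V.v_one] at v5
    refine ⟨V.v b - V.v q, ?_, Or.inr ⟨hq, hb, by omega⟩, Or.inr ⟨hr, hc, by omega⟩, Or.inl ⟨hs, rfl⟩⟩
    exact rl_of' f6 hb hq (by omega)
  · have hs : s ≠ 0 := by
      rintro rfl
      rw [mul_zero, add_zero] at e2
      have hq := (mul_eq_zero.1 e2).resolve_left ha
      rw [hq, mul_zero, mul_zero, add_zero] at e4
      exact zero_ne_one e4
    obtain ⟨D, hD⟩ : ∃ D : ℤ, V.v s = V.v a - D := ⟨V.v a - V.v s, by omega⟩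
    have hq : V.Rl D q b := rl_of f2 ha hs hD
    have hr : V.Rl D r c := rl_of' f7 ha hs hD
    refine ⟨D, ?_, hq, hr, Or.inr ⟨hs, ha, hD⟩⟩
    rcases hr with ⟨hr, hc⟩ | ⟨hr, hc, h⟩
    · rw [hc, mul_zero, add_zero] at e5
      rw [hc, zero_mul, zero_add] at e4
      have hp : p ≠ 0 := by
        rintro rfl
        rw [zero_mul] at e5
        exact zero_ne_one e5
      have hd : d ≠ 0 := by
        rintro rfl
        rw [zero_mul] at e4
        exact zero_ne_one e4
      have v5 := V.map_mul p a hp ha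
      rw [e5, V.v_one] at v5
      have v4 := V.map_mul d s hd hs
      rw [e4, V.v_one] at v4
      exact Or.inr ⟨hp, hd, by omega⟩
    · exact rl_of f3 hc hr h

theorem mul_entry (g h : Matrix (Fin 2) (Fin 2) K) (i j : Fin 2) :
    (g * h) i j = g i 0 * h 0 j + g i 1 * h 1 j := by
  rw [Matrix.mul_apply, Fin.sum_univ_two]

variable (V)

/-- the entries of the inverse have the valuations of the entries of the adjugate minus `D` -/
def Inv (D : ℤ) (g : G2 K) : Prop :=
  ∀ i j : Fin 2, V.Rl D ((g⁻¹).val i j) (g.val (Fin.rev j) (Fin.rev i))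

theorem exists_inv (g : G2 K) : ∃ D : ℤ, V.Inv D g := by
  have h1 : ∀ i j, (g.val * (g⁻¹).val) i j = (1 : Matrix (Fin 2) (Fin 2) K) i j := by
    intro i j
    rw [Units.mul_inv]
  have h2 : ∀ i j, ((g⁻¹).val * g.val) i j = (1 : Matrix (Fin 2) (Fin 2) K) i j := by
    intro i j
    rw [Units.inv_mul]
  simp only [mul_entry] at h1 h2
  obtain ⟨D, c1, c2, c3, c4⟩ := inv_aux (V := V) (h1 0 0) (h1 0 1) (h1 1 0) (h1 1 1) (h2 0 0) (h2 0 1)
    (h2 1 0)
  refine ⟨D, fun i j => ?_⟩
  fin_cases i <;> fin_cases j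
  · exact c1
  · exact c2
  · exact c3
  · exact c4

/-- the valuations of the entries are at least `m` -/
def EB (m : ℤ) (g : Matrix (Fin 2) (Fin 2) K) : Prop := ∀ i j, V.L m (g i j)

variable {V}

theorem EB_mul {m n : ℤ} {g h : Matrix (Fin 2) (Fin 2) K} (hg : V.EB m g) (hh : V.EB n h) :
    V.EB (m + n) (g * h) := by
  intro i j
  rw [mul_entry]
  exact L_add (L_mul (hg _ _) (hh _ _)) (L_mul (hg _ _) (hh _ _))

theorem EB_mono {m n : ℤ} (h : m ≤ n) {g : Matrix (Fin 2) (Fin 2) K} (hg : V.EB n g) : V.EB m g :=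
  fun i j => L_mono h (hg i j)

theorem EB_one : V.EB 0 (1 : Matrix (Fin 2) (Fin 2) K) := by
  intro i j
  by_cases h : i = j
  · rw [h, Matrix.one_apply_eq]
    exact L_one
  · rw [Matrix.one_apply_ne h]
    exact L_zero _

theorem EB_pow {m : ℤ} {g : Matrix (Fin 2) (Fin 2) K} (hg : V.EB m g) (k : ℕ) :
    V.EB (k * m) (g ^ k) := by
  induction k with
  | zero =>
    rw [pow_zero]
    exact EB_mono (by simp) EB_one
  | succ k ih =>
    rw [pow_succ]
    refine EB_mono (le_of_eq ?_) (EB_mul ih hg)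
    push_cast
    ring

variable (V)

/-- the least valuation of the entries is `m` -/
def Mn (m : ℤ) (g : Matrix (Fin 2) (Fin 2) K) : Prop :=
  V.EB m g ∧ ∃ i j, g i j ≠ 0 ∧ V.v (g i j) = m

theorem exists_Mn (g : G2 K) : ∃ m : ℤ, V.Mn m g.val := by
  classical
  have hne : ∃ i j, g.val i j ≠ 0 := by
    by_contra hcon
    push Not at hcon
    have h1 : (g.val * (g⁻¹).val) 0 0 = (1 : Matrix (Fin 2) (Fin 2) K) 0 0 := by rw [Units.mul_inv]
    rw [mul_entry, hcon, hcon, zero_mul, zero_mul, add_zero, Matrix.one_apply_eq] at h1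
    exact zero_ne_one h1
  obtain ⟨i0, j0, h0⟩ := hne
  obtain ⟨S, hS⟩ : ∃ S : Finset (Fin 2 × Fin 2), S = Finset.univ.filter fun x => g.val x.1 x.2 ≠ 0 :=
    ⟨_, rfl⟩
  obtain ⟨x, hx, hmin⟩ := S.exists_min_image (fun x => V.v (g.val x.1 x.2))
    ⟨(i0, j0), by rw [hS, Finset.mem_filter]; exact ⟨Finset.mem_univ _, h0⟩⟩
  rw [hS, Finset.mem_filter] at hx
  refine ⟨V.v (g.val x.1 x.2), fun i j h => ?_, x.1, x.2, hx.2, rfl⟩
  exact hmin (i, j) (by rw [hS, Finset.mem_filter]; exact ⟨Finset.mem_univ _, h⟩)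

end DV

end Pool.Agent.U919.NV
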